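import Pool.Agent.H132FD.Ent

/-! # Typical pairs -/

set_option autoImplicit false

open Finset Filter Topology

namespace Pool.Agent.H132FD

variable {A C : Type} [Fintype A] [DecidableEq A] [Nonempty A] [Fintype C] [DecidableEq C]

/-- the convolution along `κ` -/
noncomputable def bet (α : A → ℝ) (κ : A × A → C) (c : C) : ℝ :=
  ∑ w ∈ univ.filter (fun w => κ w = c), α w.1 * α w.2

/-- the product of the weights -/
noncomputable def PP {n : ℕ} (α : A → ℝ) (x : Fin n → A) : ℝ := ∏ i, α (x i)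

theorem typ (α : A → ℝ) (hα : ∀ a, 0 < α a) (κ : A × A → C) (hκ : Function.Surjective κ)
    (p : ℝ) (hmin : p * (∑ c, (bet α κ c ^ p / F (bet α κ) p) * Real.log (bet α κ c)) =
        min (∑ c, (bet α κ c ^ p / F (bet α κ) p) * Real.log (bet α κ c)) 0) :
    ∃ D : ℝ, ∀ δ : ℝ, 0 < δ → Real.log (F (bet α κ) p) ≤ Real.log (∑ a, α a) + 3 * δ ∨
      ∃ ν₁ ν₂ : ℝ, ν₁ + 3 * δ < Real.log (F (bet α κ) p) + max D 0 ∧
        ν₂ + 3 * δ < Real.log (F (bet α κ) p) + max D 0 ∧
        ∀ᶠ n : ℕ in atTop, ∃ T : Finset ((Fin n → A) × (Fin n → A)),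
          1 / 2 * Real.exp (n * (Real.log (F (bet α κ) p) + max D 0 - δ)) ≤
            ∑ t ∈ T, PP α t.1 * PP α t.2 ∧
          (∀ x, ∑ t ∈ T.filter (fun t => t.1 = x), PP α t.2 ≤ Real.exp (n * (ν₂ + δ))) ∧
          (∀ y, ∑ t ∈ T.filter (fun t => t.2 = y), PP α t.1 ≤ Real.exp (n * (ν₁ + δ))) ∧
          ∀ c : Fin n → C, ∑ t ∈ T.filter (fun t => (fun i => κ (t.1 i, t.2 i)) = c),
            PP α t.1 * PP α t.2 ≤ Real.exp (n * (D + δ)) := by
  classical
  set b := bet α κ with hb
  have hbpos : ∀ c, 0 < b c := by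
    intro c
    obtain ⟨w, hw⟩ := hκ c
    refine sum_pos (fun w _ => mul_pos (hα _) (hα _)) ⟨w, by simp [hw]⟩
  have hCne : Nonempty C := ⟨κ (Classical.arbitrary A, Classical.arbitrary A)⟩
  have hF := F_pos b hbpos p
  set qC : C → ℝ := fun c => b c ^ p / F b p with hqC
  have hqCpos : ∀ c, 0 < qC c := fun c => div_pos (Real.rpow_pos_of_pos (hbpos c) p) hF
  have hqC1 : ∑ c, qC c = 1 := by
    rw [hqC, ← sum_div]
    exact div_self hF.ne'
  set D : ℝ := ∑ c, qC c * Real.log (b c) with hD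
  set lam : ℝ := Real.log (F b p) with hlam
  set q : A × A → ℝ := fun w => qC (κ w) * (α w.1 * α w.2) / b (κ w) with hq
  have hqpos : ∀ w, 0 < q w := fun w => div_pos (mul_pos (hqCpos _) (mul_pos (hα _) (hα _))) (hbpos _)
  have hfib : ∀ g : C → ℝ, ∑ w, q w * g (κ w) = ∑ c, qC c * g c := by
    intro g
    rw [← sum_fiberwise (s := univ) (g := κ)]
    refine sum_congr rfl fun c _ => ?_
    have : ∑ w ∈ univ.filter (fun w => κ w = c), q w * g (κ w) =
        ∑ w ∈ univ.filter (fun w => κ w = c), (α w.1 * α w.2) * (qC c / b c * g c) := by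
      refine sum_congr rfl fun w hw => ?_
      rw [hq]
      simp only
      rw [(mem_filter.1 hw).2]
      ring
    rw [this, ← sum_mul]
    change b c * _ = _
    field_simp [(hbpos c).ne']
  have hq1 : ∑ w, q w = 1 := by
    have := hfib (fun _ => 1)
    simpa [hqC1] using this
  -- marginals
  set q1 : A → ℝ := fun a => ∑ b', q (a, b') with hq1d
  set q2 : A → ℝ := fun b' => ∑ a, q (a, b') with hq2d
  have hq1pos : ∀ a, 0 < q1 a := fun a => sum_pos (fun b' _ => hqpos _) univ_nonempty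
  have hq2pos : ∀ a, 0 < q2 a := fun a => sum_pos (fun b' _ => hqpos _) univ_nonempty
  have hq1s : ∑ a, q1 a = 1 := by rw [hq1d, ← Fintype.sum_prod_type, hq1]
  have hq2s : ∑ a, q2 a = 1 := by rw [hq2d, ← Fintype.sum_prod_type_right, hq1]
  -- the four functions
  set f1 : A × A → ℝ := fun w => (1 - p) * Real.log (b (κ w)) + lam with hf1
  set f3 : A × A → ℝ := fun w => Real.log (α w.2 * q1 w.1 / q w) with hf3
  set f4 : A × A → ℝ := fun w => Real.log (α w.1 * q2 w.2 / q w) with hf4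
  have e1 : ∀ w, α w.1 * α w.2 = q w * Real.exp (f1 w) := by
    intro w
    have h1 : Real.exp (f1 w) = b (κ w) / qC (κ w) := by
      rw [hf1, hqC]
      simp only
      rw [Real.exp_add, hlam, Real.exp_log hF, sub_mul, one_mul, Real.exp_sub, Real.exp_log (hbpos _),
        mul_comm p, ← Real.rpow_def_of_pos (hbpos _)]
      field_simp
    rw [h1, hq]
    simp only
    field_simp [(hbpos (κ w)).ne', (hqCpos (κ w)).ne']
  have e3 : ∀ w : A × A, α w.2 = q w / q1 w.1 * Real.exp (f3 w) := by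
    intro w
    rw [hf3]
    simp only
    rw [Real.exp_log (div_pos (mul_pos (hα _) (hq1pos _)) (hqpos _))]
    field_simp [(hqpos w).ne', (hq1pos w.1).ne']
  have e4 : ∀ w : A × A, α w.1 = q w / q2 w.2 * Real.exp (f4 w) := by
    intro w
    rw [hf4]
    simp only
    rw [Real.exp_log (div_pos (mul_pos (hα _) (hq2pos _)) (hqpos _))]
    field_simp [(hqpos w).ne', (hq2pos w.2).ne']
  have m1 : ∑ w, q w * f1 w = lam + max D 0 := by
    rw [hf1, hfib (fun c => (1 - p) * Real.log (b c) + lam)]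
    have : ∀ c, qC c * ((1 - p) * Real.log (b c) + lam) =
        (1 - p) * (qC c * Real.log (b c)) + qC c * lam := fun c => by ring
    simp_rw [this]
    rw [sum_add_distrib, ← mul_sum, ← sum_mul, hqC1]
    change (1 - p) * D + 1 * lam = lam + max D 0
    have h1 : p * D = min D 0 := hmin
    have h2 := max_add_min D 0
    linarith
  have hapos : 0 < ∑ a, α a := sum_pos (fun a _ => hα a) univ_nonempty
  have g3 : ∑ w, q w * f3 w ≤ Real.log (∑ a, α a) := by
    refine gibbs q (fun w => α w.2 * q1 w.1 / q w) (fun w => (hqpos w).le) hq1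
      (fun w => div_pos (mul_pos (hα _) (hq1pos _)) (hqpos _)) _ hapos (le_of_eq ?_)
    have : ∀ w : A × A, q w * (α w.2 * q1 w.1 / q w) = q1 w.1 * α w.2 := fun w => by
      field_simp [(hqpos w).ne']
    simp_rw [this]
    rw [Fintype.sum_prod_type]
    simp only [← mul_sum]
    rw [← sum_mul, hq1s, one_mul]
  have g4 : ∑ w, q w * f4 w ≤ Real.log (∑ a, α a) := by
    refine gibbs q (fun w => α w.1 * q2 w.2 / q w) (fun w => (hqpos w).le) hq1
      (fun w => div_pos (mul_pos (hα _) (hq2pos _)) (hqpos _)) _ hapos (le_of_eq ?_)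
    have : ∀ w : A × A, q w * (α w.1 * q2 w.2 / q w) = α w.1 * q2 w.2 := fun w => by
      field_simp [(hqpos w).ne']
    simp_rw [this]
    rw [Fintype.sum_prod_type]
    simp only [← mul_sum]
    rw [← sum_mul, hq2s, mul_one]
  refine ⟨D, fun δ hδ => ?_⟩
  by_cases hbad : lam ≤ Real.log (∑ a, α a) + 3 * δ
  · exact Or.inl hbad
  refine Or.inr ⟨∑ w, q w * f4 w, ∑ w, q w * f3 w, ?_, ?_, ?_⟩
  · have := le_max_right D 0
    push Not at hbad
    linarith
  · have := le_max_right D 0
    push Not at hbad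
    linarith
  -- Chernoff
  obtain ⟨r1, r10, r11, c1⟩ := chern q (fun w => (hqpos w).le) hq1 (fun w => - f1 w) (-(lam + max D 0)) δ
    (by rw [← m1, ← sum_neg_distrib]; exact sum_congr rfl fun w _ => by ring) hδ
  obtain ⟨r2, r20, r21, c2⟩ := chern q (fun w => (hqpos w).le) hq1 (fun w => Real.log (b (κ w))) D δ
    (hfib (fun c => Real.log (b c))) hδ
  obtain ⟨r3, r30, r31, c3⟩ := chern q (fun w => (hqpos w).le) hq1 f3 _ δ rfl hδ
  obtain ⟨r4, r40, r41, c4⟩ := chern q (fun w => (hqpos w).le) hq1 f4 _ δ rfl hδ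
  have l1 := tendsto_pow_atTop_nhds_zero_of_lt_one r10.le r11
  have l2 := tendsto_pow_atTop_nhds_zero_of_lt_one r20.le r21
  have l3 := tendsto_pow_atTop_nhds_zero_of_lt_one r30.le r31
  have l4 := tendsto_pow_atTop_nhds_zero_of_lt_one r40.le r41
  have hl := ((l1.add l2).add (l3.add l4))
  rw [add_zero, add_zero] at hl
  filter_upwards [hl.eventually_lt_const (show (0 : ℝ) < 1 / 2 by norm_num)] with n hn
  -- the equivalence
  let e : ((Fin n → A) × (Fin n → A)) ≃ (Fin n → A × A) :=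
    (Equiv.arrowProdEquivProdArrow (Fin n) (fun _ => A) (fun _ => A)).symm
  have he : ∀ t i, e t i = (t.1 i, t.2 i) := fun t i => rfl
  let bad1 : (Fin n → A × A) → Prop := fun v => (n : ℝ) * (-(lam + max D 0) + δ) ≤ ∑ i, - f1 (v i)
  let bad2 : (Fin n → A × A) → Prop := fun v => (n : ℝ) * (D + δ) ≤ ∑ i, Real.log (b (κ (v i)))
  let bad3 : (Fin n → A × A) → Prop := fun v => (n : ℝ) * ((∑ w, q w * f3 w) + δ) ≤ ∑ i, f3 (v i)
  let bad4 : (Fin n → A × A) → Prop := fun v => (n : ℝ) * ((∑ w, q w * f4 w) + δ) ≤ ∑ i, f4 (v i)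
  let T' : Finset (Fin n → A × A) := univ.filter fun v => ¬ bad1 v ∧ ¬ bad2 v ∧ ¬ bad3 v ∧ ¬ bad4 v
  let T : Finset ((Fin n → A) × (Fin n → A)) := univ.filter fun t => e t ∈ T'
  have hTmem : ∀ t ∈ T, ¬ bad1 (e t) ∧ ¬ bad2 (e t) ∧ ¬ bad3 (e t) ∧ ¬ bad4 (e t) := by
    intro t ht
    have h1 : e t ∈ T' := (mem_filter.1 ht).2
    exact (mem_filter.1 h1).2
  have hsumT : ∀ g : (Fin n → A × A) → ℝ, ∑ t ∈ T, g (e t) = ∑ v ∈ T', g v := by
    intro g
    refine Finset.sum_equiv e (fun t => ?_) (fun t _ => rfl)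
    simp [T]
  refine ⟨T, ?_, ?_, ?_, ?_⟩
  · -- mass
    have htot : ∑ v : Fin n → A × A, ∏ i, q (v i) = 1 := by
      rw [← Fintype.sum_pow, hq1, one_pow]
    have hge : 1 / 2 ≤ ∑ v ∈ T', ∏ i, q (v i) := by
      have h1 : ∑ v : Fin n → A × A, ∏ i, q (v i) ≤ ∑ v ∈ T', ∏ i, q (v i) +
          ((∑ v ∈ univ.filter bad1, ∏ i, q (v i) + ∑ v ∈ univ.filter bad2, ∏ i, q (v i)) +
          (∑ v ∈ univ.filter bad3, ∏ i, q (v i) + ∑ v ∈ univ.filter bad4, ∏ i, q (v i))) := by
        simp only [T', sum_filter, ← sum_add_distrib]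
        refine sum_le_sum fun v _ => ?_
        have hv : 0 ≤ ∏ i, q (v i) := prod_nonneg fun i _ => (hqpos _).le
        by_cases b1 : bad1 v <;> by_cases b2 : bad2 v <;> by_cases b3 : bad3 v <;>
          by_cases b4 : bad4 v <;> simp only [b1, b2, b3, b4, not_true_eq_false, not_false_eq_true,
            and_self, and_true, and_false, true_and, false_and, if_true, if_false] <;> linarith
      have h2 := c1 n
      have h3 := c2 n
      have h4 := c3 n
      have h5 := c4 n
      rw [htot] at h1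
      change ∑ v ∈ univ.filter bad1, ∏ i, q (v i) ≤ _ at h2
      change ∑ v ∈ univ.filter bad2, ∏ i, q (v i) ≤ _ at h3
      change ∑ v ∈ univ.filter bad3, ∏ i, q (v i) ≤ _ at h4
      change ∑ v ∈ univ.filter bad4, ∏ i, q (v i) ≤ _ at h5
      linarith
    have h1 : ∀ t ∈ T, Real.exp (n * (lam + max D 0 - δ)) * ∏ i, q (e t i) ≤ PP α t.1 * PP α t.2 := by
      intro t ht
      have hb1 := (hTmem t ht).1
      have hb1' : ∑ i, - f1 (e t i) < (n : ℝ) * (-(lam + max D 0) + δ) := not_le.1 hb1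
      rw [sum_neg_distrib] at hb1'
      have h2 : PP α t.1 * PP α t.2 = (∏ i, q (e t i)) * Real.exp (∑ i, f1 (e t i)) := by
        rw [PP, PP, ← prod_mul_distrib, Real.exp_sum, ← prod_mul_distrib]
        exact prod_congr rfl fun i _ => e1 (e t i)
      rw [h2, mul_comm]
      refine mul_le_mul_of_nonneg_left (Real.exp_le_exp.2 ?_) (prod_nonneg fun i _ => (hqpos _).le)
      linarith
    have h2 := sum_le_sum h1
    rw [← mul_sum, hsumT (fun v => ∏ i, q (v i))] at h2
    refine le_trans ?_ h2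
    rw [mul_comm]
    exact mul_le_mul_of_nonneg_left hge (Real.exp_pos _).le
  · -- rows
    intro x
    have h1 : ∀ t ∈ T.filter (fun t => t.1 = x), PP α t.2 ≤
        Real.exp (n * ((∑ w, q w * f3 w) + δ)) * ∏ i, (q (x i, t.2 i) / q1 (x i)) := by
      intro t ht
      obtain ⟨htT, htx⟩ := mem_filter.1 ht
      have hb3 := (hTmem t htT).2.2.1
      have hb3' : ∑ i, f3 (e t i) < (n : ℝ) * ((∑ w, q w * f3 w) + δ) := not_le.1 hb3
      have h2 : PP α t.2 = (∏ i, (q (x i, t.2 i) / q1 (x i))) * Real.exp (∑ i, f3 (e t i)) := by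
        rw [PP, Real.exp_sum, ← prod_mul_distrib]
        refine prod_congr rfl fun i _ => ?_
        rw [he, htx]
        exact e3 (x i, t.2 i)
      rw [h2, mul_comm]
      exact mul_le_mul_of_nonneg_right (Real.exp_le_exp.2 hb3'.le)
        (prod_nonneg fun i _ => (div_pos (hqpos _) (hq1pos _)).le)
    refine (sum_le_sum h1).trans ?_
    rw [← mul_sum]
    have h2 : ∑ t ∈ T.filter (fun t => t.1 = x), ∏ i, (q (x i, t.2 i) / q1 (x i)) ≤ 1 := by
      have h3 : T.filter (fun t => t.1 = x) ⊆ univ.image (fun y : Fin n → A => (x, y)) := by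
        intro t ht
        rw [mem_image]
        exact ⟨t.2, mem_univ _, by rw [← (mem_filter.1 ht).2]⟩
      refine (sum_le_sum_of_subset_of_nonneg h3 fun t _ _ => prod_nonneg fun i _ =>
        (div_pos (hqpos _) (hq1pos _)).le).trans ?_
      rw [sum_image (by intro y _ y' _ h; exact (Prod.ext_iff.1 h).2)]
      have h4 : ∑ y : Fin n → A, ∏ i, (q (x i, y i) / q1 (x i)) = ∏ i, ∑ b', q (x i, b') / q1 (x i) := by
        rw [Finset.prod_univ_sum, Fintype.piFinset_univ]
      simp only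
      rw [h4]
      apply le_of_eq
      refine prod_eq_one fun i _ => ?_
      rw [← sum_div]
      exact div_self (hq1pos _).ne'
    calc _ ≤ Real.exp (n * ((∑ w, q w * f3 w) + δ)) * 1 :=
          mul_le_mul_of_nonneg_left h2 (Real.exp_pos _).le
      _ = _ := mul_one _
  · -- columns
    intro y
    have h1 : ∀ t ∈ T.filter (fun t => t.2 = y), PP α t.1 ≤
        Real.exp (n * ((∑ w, q w * f4 w) + δ)) * ∏ i, (q (t.1 i, y i) / q2 (y i)) := by
      intro t ht
      obtain ⟨htT, htx⟩ := mem_filter.1 ht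
      have hb3 := (hTmem t htT).2.2.2
      have hb3' : ∑ i, f4 (e t i) < (n : ℝ) * ((∑ w, q w * f4 w) + δ) := not_le.1 hb3
      have h2 : PP α t.1 = (∏ i, (q (t.1 i, y i) / q2 (y i))) * Real.exp (∑ i, f4 (e t i)) := by
        rw [PP, Real.exp_sum, ← prod_mul_distrib]
        refine prod_congr rfl fun i _ => ?_
        rw [he, htx]
        exact e4 (t.1 i, y i)
      rw [h2, mul_comm]
      exact mul_le_mul_of_nonneg_right (Real.exp_le_exp.2 hb3'.le)
        (prod_nonneg fun i _ => (div_pos (hqpos _) (hq2pos _)).le)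
    refine (sum_le_sum h1).trans ?_
    rw [← mul_sum]
    have h2 : ∑ t ∈ T.filter (fun t => t.2 = y), ∏ i, (q (t.1 i, y i) / q2 (y i)) ≤ 1 := by
      have h3 : T.filter (fun t => t.2 = y) ⊆ univ.image (fun x : Fin n → A => (x, y)) := by
        intro t ht
        rw [mem_image]
        exact ⟨t.1, mem_univ _, by rw [← (mem_filter.1 ht).2]⟩
      refine (sum_le_sum_of_subset_of_nonneg h3 fun t _ _ => prod_nonneg fun i _ =>
        (div_pos (hqpos _) (hq2pos _)).le).trans ?_
      rw [sum_image (by intro y _ y' _ h; exact (Prod.ext_iff.1 h).1)]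
      have h4 : ∑ x : Fin n → A, ∏ i, (q (x i, y i) / q2 (y i)) = ∏ i, ∑ a, q (a, y i) / q2 (y i) := by
        rw [Finset.prod_univ_sum, Fintype.piFinset_univ]
      simp only
      rw [h4]
      apply le_of_eq
      refine prod_eq_one fun i _ => ?_
      rw [← sum_div]
      exact div_self (hq2pos _).ne'
    calc _ ≤ Real.exp (n * ((∑ w, q w * f4 w) + δ)) * 1 :=
          mul_le_mul_of_nonneg_left h2 (Real.exp_pos _).le
      _ = _ := mul_one _
  · -- fibres
    intro c
    rcases (T.filter (fun t => (fun i => κ (t.1 i, t.2 i)) = c)).eq_empty_or_nonempty with h0 | ⟨t0, ht0⟩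
    · rw [h0, sum_empty]
      exact (Real.exp_pos _).le
    · obtain ⟨ht0T, ht0c⟩ := mem_filter.1 ht0
      have hb2 := (hTmem t0 ht0T).2.1
      have hb2' : ∑ i, Real.log (b (κ (e t0 i))) < (n : ℝ) * (D + δ) := not_le.1 hb2
      have h1 : ∏ i, b (c i) ≤ Real.exp (n * (D + δ)) := by
        have h2 : ∏ i, b (c i) = Real.exp (∑ i, Real.log (b (κ (e t0 i)))) := by
          rw [Real.exp_sum]
          refine prod_congr rfl fun i _ => ?_
          rw [Real.exp_log (hbpos _), he, ← ht0c]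
        rw [h2]
        exact Real.exp_le_exp.2 hb2'.le
      refine le_trans ?_ h1
      have h3 : ∏ i, b (c i) = ∑ v ∈ Fintype.piFinset (fun i => univ.filter (fun w => κ w = c i)),
          ∏ i, (α (v i).1 * α (v i).2) := by
        rw [hb]
        unfold bet
        rw [Finset.prod_univ_sum]
      rw [h3]
      have h4 : ∑ t ∈ T.filter (fun t => (fun i => κ (t.1 i, t.2 i)) = c), PP α t.1 * PP α t.2 =
          ∑ v ∈ (T.filter (fun t => (fun i => κ (t.1 i, t.2 i)) = c)).map e.toEmbedding,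
            ∏ i, (α (v i).1 * α (v i).2) := by
        rw [sum_map]
        refine sum_congr rfl fun t _ => ?_
        rw [PP, PP, ← prod_mul_distrib]
        rfl
      rw [h4]
      refine sum_le_sum_of_subset_of_nonneg ?_ fun v _ _ => prod_nonneg fun i _ =>
        (mul_pos (hα _) (hα _)).le
      intro v hv
      rw [Finset.mem_map] at hv
      obtain ⟨t, ht, rfl⟩ := hv
      rw [Fintype.mem_piFinset]
      intro i
      rw [mem_filter]
      refine ⟨mem_univ _, ?_⟩
      have := congrFun (mem_filter.1 ht).2 i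
      exact this

end Pool.Agent.H132FD
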