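import Pool.Agent.H132FD.Rand
import Pool.Agent.H132FD.Typ

/-! # Assembly of the random construction -/

set_option autoImplicit false

open Finset Filter Topology

namespace Pool.Agent.H132FD

variable {A : Type} [Fintype A] [DecidableEq A] [Nonempty A]

/-- half of the product weight -/
noncomputable def hp (α : A → ℝ) (n : ℕ) (x : Fin n → A) : ℝ := PP α x / 2

theorem PP_nonneg {α : A → ℝ} (hα : ∀ a, 0 < α a) {n : ℕ} (x : Fin n → A) : 0 ≤ PP α x :=
  prod_nonneg fun i _ => (hα _).le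

theorem PP_le_one {α : A → ℝ} (hα : ∀ a, 0 < α a) (hα1 : ∀ a, α a ≤ 1) {n : ℕ} (x : Fin n → A) :
    PP α x ≤ 1 := prod_le_one (fun i _ => (hα _).le) fun i _ => hα1 _

theorem hp0 {α : A → ℝ} (hα : ∀ a, 0 < α a) {n : ℕ} (x : Fin n → A) : 0 ≤ hp α n x :=
  div_nonneg (PP_nonneg hα x) (by norm_num)

theorem hp1 {α : A → ℝ} (hα : ∀ a, 0 < α a) (hα1 : ∀ a, α a ≤ 1) {n : ℕ} (x : Fin n → A) :
    hp α n x ≤ 1 := by
  have := PP_le_one hα hα1 x
  unfold hp
  linarith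

theorem sum_PP (α : A → ℝ) (n : ℕ) : ∑ x : Fin n → A, PP α x = (∑ a, α a) ^ n := by
  rw [Fintype.sum_pow]; rfl

theorem sum_hp (α : A → ℝ) (n : ℕ) : ∑ x : Fin n → A, hp α n x = (∑ a, α a) ^ n / 2 := by
  unfold hp
  rw [← sum_div, sum_PP]

/-- with high probability -/
def Whp (α : A → ℝ) (Good : (n : ℕ) → Finset (Fin n → A) × Finset (Fin n → A) → Prop) : Prop :=
  ∀ η : ℝ, 0 < η → ∀ᶠ n : ℕ in atTop, ∃ Ψ : Finset (Fin n → A) × Finset (Fin n → A) → ℝ,
    (∀ R, 0 ≤ Ψ R) ∧ E (hp α n) Ψ < η ∧ ∀ R, Ψ R < 1 → Good n R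

theorem whp_all {J : Type} [Fintype J] (α : A → ℝ) (hα : ∀ a, 0 < α a) (hα1 : ∀ a, α a ≤ 1)
    (Good : J → (n : ℕ) → Finset (Fin n → A) × Finset (Fin n → A) → Prop)
    (h : ∀ j, Whp α (Good j)) : ∀ᶠ n : ℕ in atTop, ∃ R, ∀ j, Good j n R := by
  classical
  have h1 : ∀ᶠ n : ℕ in atTop, ∀ j, ∃ Ψ : Finset (Fin n → A) × Finset (Fin n → A) → ℝ,
      (∀ R, 0 ≤ Ψ R) ∧ E (hp α n) Ψ < 1 / ((Fintype.card J : ℝ) + 1) ∧ ∀ R, Ψ R < 1 → Good j n R :=
    eventually_all.2 fun j => h j _ (by positivity)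
  filter_upwards [h1] with n hn
  choose Ψ h2 h3 h4 using hn
  have h5 : E (hp α n) (fun R => ∑ j, Ψ j R) < 1 := by
    rw [E_sum]
    calc ∑ j, E (hp α n) (Ψ j) ≤ ∑ _j : J, 1 / ((Fintype.card J : ℝ) + 1) :=
          sum_le_sum fun j _ => (h3 j).le
      _ = Fintype.card J / ((Fintype.card J : ℝ) + 1) := by
          rw [sum_const, card_univ, nsmul_eq_mul, mul_one_div]
      _ < 1 := by
          rw [div_lt_one (by positivity)]
          linarith
  obtain ⟨R, hR⟩ := exists_lt (fun x => hp0 hα x) (fun x => hp1 hα hα1 x) h5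
  refine ⟨R, fun j => h4 j R (lt_of_le_of_lt ?_ hR)⟩
  exact single_le_sum (f := fun j => Ψ j R) (fun j _ => h2 j R) (mem_univ j)

theorem card_eq_ind {V : Type} [Fintype V] [DecidableEq V] (S : Finset V) :
    (S.card : ℝ) = ∑ x, ind S x := by
  unfold ind
  rw [← sum_filter, sum_const, nsmul_eq_mul, mul_one]
  congr 1
  congr 1
  ext x
  simp

theorem E_fst {V : Type} [Fintype V] [DecidableEq V] (p : V → ℝ) (f : Finset V → ℝ) :
    E p (fun R => f R.1) = ∑ S, wt p S * f S := by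
  have := E_prod p f (fun _ => 1)
  simp only [mul_one, sum_wt] at this
  exact this

theorem E_snd {V : Type} [Fintype V] [DecidableEq V] (p : V → ℝ) (f : Finset V → ℝ) :
    E p (fun R => f R.2) = ∑ S, wt p S * f S := by
  have := E_prod p (fun _ => 1) f
  simp only [one_mul, mul_one, sum_wt] at this
  exact this

theorem sum_card {V : Type} [Fintype V] [DecidableEq V] (p : V → ℝ) :
    ∑ S : Finset V, wt p S * (S.card : ℝ) = ∑ x, p x := by
  simp_rw [card_eq_ind, mul_sum]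
  rw [sum_comm]
  exact sum_congr rfl fun x _ => sum_ind p x

theorem sum_card_sq {V : Type} [Fintype V] [DecidableEq V] {p : V → ℝ} (h0 : ∀ x, 0 ≤ p x) :
    ∑ S : Finset V, wt p S * (S.card : ℝ) ^ 2 ≤ (∑ x, p x) ^ 2 + ∑ x, p x := by
  have e : ∀ S : Finset V, wt p S * (S.card : ℝ) ^ 2 =
      ∑ x, ∑ y, wt p S * (ind S x * ind S y) := by
    intro S
    rw [card_eq_ind, sq, sum_mul_sum, mul_sum]
    exact sum_congr rfl fun x _ => by rw [mul_sum]
  simp_rw [e]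
  rw [sum_comm]
  have e2 : ∀ x : V, ∑ S : Finset V, ∑ y, wt p S * (ind S x * ind S y) =
      ∑ y, ∑ S : Finset V, wt p S * (ind S x * ind S y) := fun x => sum_comm
  simp_rw [e2]
  refine (sum_le_sum fun x _ => sum_le_sum fun y _ => sum_ind2 h0 x y).trans ?_
  simp only [sum_add_distrib]
  rw [sq, sum_mul_sum]
  simp

theorem szl (α : A → ℝ) (hα : ∀ a, 0 < α a) (hα1 : ∀ a, α a ≤ 1) (ha : 1 < ∑ a, α a) :
    Whp α fun n R => (∑ a, α a) ^ n / 4 ≤ (R.1.card : ℝ) := by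
  intro η hη
  have hlim : Tendsto (fun n : ℕ => 8 * ((∑ a, α a) ^ n)⁻¹) atTop (𝓝 (8 * 0)) :=
    ((tendsto_pow_atTop_atTop_of_one_lt ha).inv_tendsto_atTop).const_mul 8
  rw [mul_zero] at hlim
  filter_upwards [hlim.eventually_lt_const hη] with n hn
  set μ : ℝ := (∑ a, α a) ^ n / 2 with hμ
  have hapos : 0 < (∑ a, α a) ^ n := pow_pos (by linarith) n
  have hμ0 : 0 < μ := by rw [hμ]; linarith
  refine ⟨fun R => 4 / μ ^ 2 * ((R.1.card : ℝ) - μ) ^ 2, fun R => by positivity, ?_, ?_⟩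
  · have h1 : E (hp α n) (fun R => 4 / μ ^ 2 * ((R.1.card : ℝ) - μ) ^ 2) =
        4 / μ ^ 2 * (∑ S, wt (hp α n) S * ((S.card : ℝ) - μ) ^ 2) := by
      rw [E_smul, E_fst (hp α n) (fun S => ((S.card : ℝ) - μ) ^ 2)]
    have h2 : ∑ S, wt (hp α n) S * ((S.card : ℝ) - μ) ^ 2 ≤ μ := by
      have e : ∀ S : Finset (Fin n → A), wt (hp α n) S * ((S.card : ℝ) - μ) ^ 2 =
          wt (hp α n) S * (S.card : ℝ) ^ 2 - 2 * μ * (wt (hp α n) S * (S.card : ℝ)) +
            wt (hp α n) S * μ ^ 2 := fun S => by ring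
      simp_rw [e]
      rw [sum_add_distrib, sum_sub_distrib, ← mul_sum, sum_card, ← sum_mul, sum_wt, sum_hp]
      have := sum_card_sq (p := hp α n) (fun x => hp0 hα x)
      rw [sum_hp] at this
      rw [← hμ] at this ⊢
      nlinarith
    rw [h1]
    calc 4 / μ ^ 2 * (∑ S, wt (hp α n) S * ((S.card : ℝ) - μ) ^ 2) ≤ 4 / μ ^ 2 * μ := by gcongr
      _ = 8 * ((∑ a, α a) ^ n)⁻¹ := by rw [hμ]; field_simp; ring
      _ < η := hn
  · intro R hR
    by_contra hc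
    push Not at hc
    have h1 : μ / 2 < μ - (R.1.card : ℝ) := by
      have : (∑ a, α a) ^ n / 4 = μ / 2 := by rw [hμ]; ring
      linarith
    have h2 : (μ / 2) ^ 2 < ((R.1.card : ℝ) - μ) ^ 2 := by nlinarith
    have h3 : 4 / μ ^ 2 * (μ / 2) ^ 2 = 1 := by field_simp; ring
    have h4 : 4 / μ ^ 2 * (μ / 2) ^ 2 < 4 / μ ^ 2 * ((R.1.card : ℝ) - μ) ^ 2 := by gcongr
    simp only at hR
    linarith

theorem szu (α : A → ℝ) (hα : ∀ a, 0 < α a) (hα1 : ∀ a, α a ≤ 1) (ha : 1 < ∑ a, α a) (δ : ℝ)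
    (hδ : 0 < δ) :
    Whp α fun n R => ((R.1 ∪ R.2).card : ℝ) ≤ Real.exp (n * δ) * (∑ a, α a) ^ n := by
  intro η hη
  have hlim : Tendsto (fun n : ℕ => (Real.exp (n * δ))⁻¹) atTop (𝓝 0) := by
    refine Tendsto.inv_tendsto_atTop ?_
    exact Real.tendsto_exp_atTop.comp ((tendsto_natCast_atTop_atTop).atTop_mul_const hδ)
  filter_upwards [hlim.eventually_lt_const hη] with n hn
  have hapos : 0 < (∑ a, α a) ^ n := pow_pos (by linarith) n
  have hK : 0 < Real.exp (n * δ) * (∑ a, α a) ^ n := mul_pos (Real.exp_pos _) hapos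
  refine ⟨fun R => (Real.exp (n * δ) * (∑ a, α a) ^ n)⁻¹ * ((R.1 ∪ R.2).card : ℝ),
    fun R => by positivity, ?_, ?_⟩
  · rw [E_smul]
    have h1 : E (hp α n) (fun R => ((R.1 ∪ R.2).card : ℝ)) ≤ (∑ a, α a) ^ n := by
      refine (E_mono (fun x => hp0 hα x) (fun x => hp1 hα hα1 x)
        (G := fun R => (R.1.card : ℝ) + (R.2.card : ℝ)) (fun R => ?_)).trans ?_
      · exact_mod_cast card_union_le _ _
      · rw [E_add, E_fst (hp α n) (fun S => (S.card : ℝ)), E_snd (hp α n) (fun S => (S.card : ℝ)),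
          sum_card, sum_hp]
        linarith
    calc _ ≤ (Real.exp (n * δ) * (∑ a, α a) ^ n)⁻¹ * (∑ a, α a) ^ n := by gcongr
      _ = (Real.exp (n * δ))⁻¹ := by field_simp
      _ < η := hn
  · intro R hR
    simp only at hR
    rw [inv_mul_lt_iff₀ hK, mul_one] at hR
    exact hR.le

end Pool.Agent.H132FD
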