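import Mathlib

/-! # Chernoff bound, Gibbs inequality, and the minimizing exponent -/

set_option autoImplicit false

open Finset Filter Topology

namespace Pool.Agent.H132FD

theorem chern {W : Type} [Fintype W] (q : W → ℝ) (hq0 : ∀ w, 0 ≤ q w) (hq1 : ∑ w, q w = 1)
    (f : W → ℝ) (m δ : ℝ) (hm : ∑ w, q w * f w = m) (hδ : 0 < δ) :
    ∃ ρ : ℝ, 0 < ρ ∧ ρ < 1 ∧ ∀ n : ℕ,
      ∑ v ∈ (univ : Finset (Fin n → W)).filter (fun v => (n : ℝ) * (m + δ) ≤ ∑ i, f (v i)),
        ∏ i, q (v i) ≤ ρ ^ n := by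
  classical
  set h : W → ℝ := fun w => f w - (m + δ) with hh
  have hmean : ∑ w, q w * h w = -δ := by
    simp only [hh, mul_sub, sum_sub_distrib, ← sum_mul, hq1, hm]
    ring
  obtain ⟨B, hB1, hB⟩ : ∃ B : ℝ, 1 ≤ B ∧ ∀ w, |h w| ≤ B := by
    refine ⟨1 + ∑ w, |h w|, by
      have := sum_nonneg (s := univ) (fun w _ => abs_nonneg (h w)); linarith, fun w => ?_⟩
    have := single_le_sum (s := univ) (f := fun w => |h w|) (fun w _ => abs_nonneg _) (mem_univ w)
    linarith
  have hB0 : 0 < B := by linarith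
  obtain ⟨s, hs0, hs1, hs2⟩ : ∃ s : ℝ, 0 < s ∧ s * B ≤ 1 ∧ s * B ^ 2 ≤ δ / 2 := by
    refine ⟨min (1 / B) (δ / (2 * B ^ 2)), by positivity, ?_, ?_⟩
    · calc min (1 / B) (δ / (2 * B ^ 2)) * B ≤ 1 / B * B := by gcongr; exact min_le_left _ _
        _ = 1 := by field_simp
    · calc min (1 / B) (δ / (2 * B ^ 2)) * B ^ 2 ≤ δ / (2 * B ^ 2) * B ^ 2 := by
            gcongr; exact min_le_right _ _
        _ = δ / 2 := by field_simp
  refine ⟨∑ w, q w * Real.exp (s * h w), ?_, ?_, fun n => ?_⟩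
  · have hne : ∃ w, 0 < q w := by
      by_contra hc
      push Not at hc
      have : ∑ w, q w ≤ 0 := sum_nonpos fun w _ => hc w
      linarith
    obtain ⟨w, hw⟩ := hne
    exact sum_pos' (fun w _ => mul_nonneg (hq0 w) (Real.exp_pos _).le)
      ⟨w, mem_univ w, mul_pos hw (Real.exp_pos _)⟩
  · have h1 : ∀ w, q w * Real.exp (s * h w) ≤ q w * (1 + s * h w + (s * B) * (s * B)) := by
      intro w
      refine mul_le_mul_of_nonneg_left ?_ (hq0 w)
      have h2 : |s * h w| ≤ s * B := by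
        rw [abs_mul, abs_of_pos hs0]
        exact mul_le_mul_of_nonneg_left (hB w) hs0.le
      have h3 := Real.abs_exp_sub_one_sub_id_le (x := s * h w) (h2.trans hs1)
      have h4 := (abs_le.1 h3).2
      have h5 : (s * h w) ^ 2 ≤ (s * B) * (s * B) := by
        rw [← sq, ← sq_abs]
        exact pow_le_pow_left₀ (abs_nonneg _) h2 2
      linarith
    have h2 := sum_le_sum (s := univ) (fun w _ => h1 w)
    have h3 : ∑ w, q w * (1 + s * h w + (s * B) * (s * B)) = 1 - s * δ + (s * B) * (s * B) := by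
      have : ∀ w, q w * (1 + s * h w + (s * B) * (s * B)) =
          q w * (1 + (s * B) * (s * B)) + s * (q w * h w) := fun w => by ring
      simp_rw [this]
      rw [sum_add_distrib, ← sum_mul, ← mul_sum, hq1, hmean]
      ring
    rw [h3] at h2
    have h4 : (s * B) * (s * B) ≤ s * (δ / 2) := by
      calc (s * B) * (s * B) = s * (s * B ^ 2) := by ring
        _ ≤ s * (δ / 2) := by gcongr
    nlinarith
  · rw [Fintype.sum_pow]
    refine le_trans (sum_le_sum (g := fun v : Fin n → W => ∏ i, (q (v i) * Real.exp (s * h (v i)))) ?_) ?_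
    · intro v hv
      rw [mem_filter] at hv
      rw [prod_mul_distrib, ← Real.exp_sum]
      have h1 : 0 ≤ ∏ i, q (v i) := prod_nonneg fun i _ => hq0 _
      have h2 : 0 ≤ ∑ i, s * h (v i) := by
        rw [← mul_sum]
        refine mul_nonneg hs0.le ?_
        simp only [hh, sum_sub_distrib, sum_const, card_univ, Fintype.card_fin, nsmul_eq_mul]
        linarith [hv.2]
      have h3 : 1 ≤ Real.exp (∑ i, s * h (v i)) := Real.one_le_exp h2
      nlinarith
    · exact sum_le_sum_of_subset_of_nonneg (filter_subset _ _) fun v _ _ =>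
        prod_nonneg fun i _ => mul_nonneg (hq0 _) (Real.exp_pos _).le

theorem gibbs {W : Type} [Fintype W] (q t : W → ℝ) (hq0 : ∀ w, 0 ≤ q w) (hq1 : ∑ w, q w = 1)
    (ht : ∀ w, 0 < t w) (τ : ℝ) (hτ : 0 < τ) (h : ∑ w, q w * t w ≤ τ) :
    ∑ w, q w * Real.log (t w) ≤ Real.log τ := by
  have h1 : ∀ w, q w * Real.log (t w) ≤ q w * (t w / τ - 1 + Real.log τ) := by
    intro w
    refine mul_le_mul_of_nonneg_left ?_ (hq0 w)
    have h2 := Real.log_le_sub_one_of_pos (div_pos (ht w) hτ)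
    rw [Real.log_div (ht w).ne' hτ.ne'] at h2
    linarith
  refine (sum_le_sum fun w _ => h1 w).trans ?_
  have h2 : ∑ w, q w * (t w / τ - 1 + Real.log τ) = (∑ w, q w * t w) / τ - 1 + Real.log τ := by
    have : ∀ w, q w * (t w / τ - 1 + Real.log τ) = (q w * t w) / τ + q w * (Real.log τ - 1) :=
      fun w => by ring
    simp_rw [this]
    rw [sum_add_distrib, ← sum_div, ← sum_mul, hq1]
    ring
  rw [h2]
  have h3 : (∑ w, q w * t w) / τ ≤ 1 := by rwa [div_le_one hτ]
  linarith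

/-- the sum of the `p`-th powers -/
noncomputable def F {C : Type} [Fintype C] (b : C → ℝ) (p : ℝ) : ℝ := ∑ c, b c ^ p

theorem F_pos {C : Type} [Fintype C] [Nonempty C] (b : C → ℝ) (hb : ∀ c, 0 < b c) (p : ℝ) :
    0 < F b p := sum_pos (fun c _ => Real.rpow_pos_of_pos (hb c) p) univ_nonempty

theorem vari {C : Type} [Fintype C] [Nonempty C] (b : C → ℝ) (hb : ∀ c, 0 < b c) :
    ∃ p : ℝ, 0 ≤ p ∧ p ≤ 1 ∧ (∀ p', 0 ≤ p' → p' ≤ 1 → F b p ≤ F b p') ∧
      p * (∑ c, (b c ^ p / F b p) * Real.log (b c)) =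
        min (∑ c, (b c ^ p / F b p) * Real.log (b c)) 0 := by
  have hder : ∀ p, HasDerivAt (F b) (∑ c, b c ^ p * Real.log (b c)) p := by
    intro p
    unfold F
    refine HasDerivAt.fun_sum fun c _ => ?_
    exact (Real.hasStrictDerivAt_const_rpow (hb c) p).hasDerivAt
  have hcont : Continuous (F b) := continuous_iff_continuousAt.2 fun p => (hder p).continuousAt
  obtain ⟨p, hp, hmin⟩ := isCompact_Icc.exists_isMinOn (Set.nonempty_Icc.2 (zero_le_one' ℝ))
    hcont.continuousOn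
  refine ⟨p, hp.1, hp.2, fun p' h0 h1 => hmin ⟨h0, h1⟩, ?_⟩
  have hF := F_pos b hb p
  set Δ := ∑ c, b c ^ p * Real.log (b c) with hΔ
  have hD : ∑ c, (b c ^ p / F b p) * Real.log (b c) = Δ / F b p := by
    rw [hΔ, sum_div]
    exact sum_congr rfl fun c _ => by ring
  rw [hD]
  have hloc : IsLocalMinOn (F b) (Set.Icc 0 1) p := hmin.localize
  have hw : HasFDerivWithinAt (F b) (ContinuousLinearMap.toSpanSingleton ℝ Δ) (Set.Icc 0 1) p :=
    (hder p).hasFDerivAt.hasFDerivWithinAt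
  have h0 : 0 ≤ (ContinuousLinearMap.toSpanSingleton ℝ Δ) (0 - p) := by
    refine hloc.hasFDerivWithinAt_nonneg hw ?_
    refine sub_mem_posTangentConeAt_of_segment_subset ?_
    exact (convex_Icc (0 : ℝ) 1).segment_subset hp (Set.left_mem_Icc.2 zero_le_one)
  have h1 : 0 ≤ (ContinuousLinearMap.toSpanSingleton ℝ Δ) (1 - p) := by
    refine hloc.hasFDerivWithinAt_nonneg hw ?_
    refine sub_mem_posTangentConeAt_of_segment_subset ?_
    exact (convex_Icc (0 : ℝ) 1).segment_subset hp (Set.right_mem_Icc.2 zero_le_one)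
  rw [ContinuousLinearMap.toSpanSingleton_apply, smul_eq_mul] at h0 h1
  rcases eq_or_lt_of_le hp.1 with e | e
  · rw [← e] at h1
    have h2 : 0 ≤ Δ := by linarith
    rw [min_eq_right (div_nonneg h2 hF.le), ← e, zero_mul]
  · have h2 : Δ ≤ 0 := by nlinarith
    rcases eq_or_lt_of_le hp.2 with e' | e'
    · rw [e', one_mul, min_eq_left]
      exact div_nonpos_of_nonpos_of_nonneg h2 (by rw [← e']; exact hF.le)
    · have h3 : 0 ≤ Δ := by nlinarith
      have : Δ = 0 := le_antisymm h2 h3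
      rw [this]
      simp

end Pool.Agent.H132FD
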