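import Pool.Agent.H132FD.Main

/-! # Last estimates -/

set_option autoImplicit false

open Finset Filter Topology

namespace Pool.Agent.H132FD

theorem ratio (L lam x y δ ε Λ : ℝ) (hL : 0 < L) (hΛ : |lam| ≤ Λ) (hε : 0 < ε) (hδ : 0 < δ)
    (hδ1 : δ ≤ L / 4) (hδ2 : δ * (8 * (Λ + 2 * L + 1)) ≤ ε * L ^ 2)
    (hx : |x - lam| ≤ 4 * δ) (hy : |y - L| ≤ 2 * δ) : |lam / L - x / y| < ε := by
  have hy2 := abs_le.1 hy
  have hyL : L / 2 ≤ y := by linarith [hy2.1]
  have hy0 : 0 < y := by linarith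
  have hΛ0 : 0 ≤ Λ := (abs_nonneg _).trans hΛ
  rw [div_sub_div _ _ hL.ne' hy0.ne', abs_div, abs_of_pos (mul_pos hL hy0), div_lt_iff₀ (mul_pos hL hy0)]
  have e : lam * y - L * x = lam * (y - L) - L * (x - lam) := by ring
  rw [e]
  have h1 : |lam * (y - L) - L * (x - lam)| ≤ Λ * (2 * δ) + L * (4 * δ) := by
    refine (abs_sub _ _).trans ?_
    rw [abs_mul, abs_mul, abs_of_pos hL]
    exact add_le_add (mul_le_mul hΛ hy (abs_nonneg _) hΛ0) (mul_le_mul_of_nonneg_left hx hL.le)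
  have h2 : ε * L ^ 2 / 2 ≤ ε * (L * y) := by
    have : L * (L / 2) ≤ L * y := mul_le_mul_of_nonneg_left hyL hL.le
    nlinarith
  have h3 : 0 < ε * L ^ 2 := by positivity
  nlinarith

theorem numbers {n : ℕ} (L lam δ s d : ℝ) (hn : Real.log 64 ≤ n * δ) (hn1 : 0 < (n : ℝ))
    (hs1 : Real.exp (n * L) / 4 ≤ s) (hs2 : s ≤ Real.exp (n * δ) * Real.exp (n * L))
    (hd1 : 1 / 64 * Real.exp (n * (lam - 3 * δ)) ≤ d) (hd2 : d ≤ 2 * Real.exp (n * (lam + 2 * δ))) :
    |Real.log d / n - lam| ≤ 4 * δ ∧ |Real.log s / n - L| ≤ 2 * δ := by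
  have hs0 : 0 < s := lt_of_lt_of_le (by positivity) hs1
  have hd0 : 0 < d := lt_of_lt_of_le (by positivity) hd1
  have l4 : Real.log 4 ≤ Real.log 64 := Real.log_le_log (by norm_num) (by norm_num)
  have l2 : Real.log 2 ≤ Real.log 64 := Real.log_le_log (by norm_num) (by norm_num)
  have a1 : n * L - Real.log 4 ≤ Real.log s := by
    have := Real.log_le_log (by positivity) hs1
    rwa [Real.log_div (Real.exp_pos _).ne' (by norm_num), Real.log_exp] at this
  have a2 : Real.log s ≤ n * δ + n * L := by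
    have := Real.log_le_log hs0 hs2
    rwa [← Real.exp_add, Real.log_exp] at this
  have b1 : n * (lam - 3 * δ) - Real.log 64 ≤ Real.log d := by
    have := Real.log_le_log (by positivity) hd1
    rw [Real.log_mul (by norm_num) (Real.exp_pos _).ne', Real.log_exp, one_div, Real.log_inv] at this
    linarith
  have b2 : Real.log d ≤ Real.log 2 + n * (lam + 2 * δ) := by
    have := Real.log_le_log hd0 hd2
    rwa [Real.log_mul (by norm_num) (Real.exp_pos _).ne', Real.log_exp] at this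
  have l64 : 0 < Real.log 64 := Real.log_pos (by norm_num)
  have hδ : 0 < n * δ := by linarith
  constructor
  · rw [abs_le]
    constructor
    · have : (lam - 4 * δ) ≤ Real.log d / n := by
        rw [le_div_iff₀ hn1]
        nlinarith
      linarith
    · have : Real.log d / n ≤ lam + 4 * δ := by
        rw [div_le_iff₀ hn1]
        nlinarith
      linarith
  · rw [abs_le]
    constructor
    · have : (L - 2 * δ) ≤ Real.log s / n := by
        rw [le_div_iff₀ hn1]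
        nlinarith
      linarith
    · have : Real.log s / n ≤ L + 2 * δ := by
        rw [div_le_iff₀ hn1]
        nlinarith
      linarith

variable {A : Type} [Fintype A] [DecidableEq A] [Nonempty A]

theorem approx (ι : A → ℤ) (hι : Function.Injective ι) (α : A → ℝ) (hα : ∀ a, 0 < α a)
    (hα1 : ∀ a, α a ≤ 1) (ha : 1 < ∑ a, α a) (𝒦 : Finset ℤ) (h𝒦 : ∀ k ∈ 𝒦, k ≠ 0) (lam : ℤ → ℝ)
    (hlam : ∀ k ∈ 𝒦, (⨅ p : Set.Ioo (0 : ℝ) 1, F (bet α (kap ι k)) p) = Real.exp (lam k))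
    (ε : ℝ) (hε : 0 < ε) : ∃ S : Finset ℤ, 2 ≤ S.card ∧ ∀ k ∈ 𝒦,
      |lam k / Real.log (∑ a, α a) -
        Real.log (((S ×ˢ S).image fun t => t.1 + k * t.2).card : ℝ) / Real.log (S.card : ℝ)| < ε := by
  set L := Real.log (∑ a, α a) with hLdef
  have hL : 0 < L := Real.log_pos ha
  have hap : 0 < ∑ a, α a := by linarith
  have hΛ : ∀ k ∈ 𝒦, |lam k| ≤ ∑ k ∈ 𝒦, |lam k| :=
    fun k hk => single_le_sum (f := fun k => |lam k|) (fun _ _ => abs_nonneg _) hk
  have hΛ0 : 0 ≤ ∑ k ∈ 𝒦, |lam k| := sum_nonneg fun _ _ => abs_nonneg _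
  set Λ := ∑ k ∈ 𝒦, |lam k| with hΛdef
  obtain ⟨δ, hδ, hδ1, hδ2⟩ : ∃ δ : ℝ, 0 < δ ∧ δ ≤ L / 4 ∧ δ * (8 * (Λ + 2 * L + 1)) ≤ ε * L ^ 2 := by
    have hden : 0 < 8 * (Λ + 2 * L + 1) := by linarith
    refine ⟨min (L / 4) (ε * L ^ 2 / (8 * (Λ + 2 * L + 1))), lt_min (by linarith) (by positivity),
      min_le_left _ _, ?_⟩
    calc min (L / 4) (ε * L ^ 2 / (8 * (Λ + 2 * L + 1))) * (8 * (Λ + 2 * L + 1))
        ≤ (ε * L ^ 2 / (8 * (Λ + 2 * L + 1))) * (8 * (Λ + 2 * L + 1)) :=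
          mul_le_mul_of_nonneg_right (min_le_right _ _) hden.le
      _ = ε * L ^ 2 := div_mul_cancel₀ _ hden.ne'
  obtain ⟨-, h2⟩ := construct ι hι α hα hα1 ha 𝒦 h𝒦 lam hlam δ hδ (by rw [← hLdef]; linarith)
  have h3 : ∀ᶠ n : ℕ in atTop, Real.log 64 ≤ n * δ :=
    ((tendsto_natCast_atTop_atTop).atTop_mul_const hδ).eventually_ge_atTop _
  obtain ⟨n, ⟨S, hS1, hS2, hS3⟩, hn, hn1⟩ := (h2.and (h3.and (eventually_ge_atTop 1))).exists
  obtain ⟨S', hS', hDD⟩ := project ι hι 𝒦 S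
  have hn0 : 0 < (n : ℝ) := by exact_mod_cast hn1
  have hpow : (∑ a, α a) ^ n = Real.exp (n * L) := by
    rw [hLdef, mul_comm, Real.exp_mul, Real.exp_log hap, Real.rpow_natCast]
  rw [hpow] at hS1 hS2
  refine ⟨S', ?_, fun k hk => ?_⟩
  · have l64 : 0 < Real.log 64 := Real.log_pos (by norm_num)
    have l4 : Real.log 4 ≤ Real.log 64 := Real.log_le_log (by norm_num) (by norm_num)
    have h5 : Real.exp 0 < (S.card : ℝ) := by
      refine lt_of_lt_of_le ?_ hS1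
      rw [lt_div_iff₀ (by norm_num)]
      have h6 : Real.exp 0 * 4 = Real.exp (Real.log 4) := by
        rw [Real.exp_zero, Real.exp_log (by norm_num), one_mul]
      rw [h6]
      refine Real.exp_lt_exp.2 ?_
      nlinarith
    rw [Real.exp_zero] at h5
    rw [hS']
    exact_mod_cast h5
  · rw [hDD k hk, hS']
    obtain ⟨h7, h8⟩ := numbers L (lam k) δ _ _ hn hn0 hS1 hS2 (hS3 k hk).1 (hS3 k hk).2
    have h9 := ratio L (lam k) _ _ δ ε Λ hL (hΛ k hk) hε hδ hδ1 hδ2 h7 h8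
    rwa [div_div_div_cancel_right₀ hn0.ne'] at h9

end Pool.Agent.H132FD
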