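import Pool.Agent.H132FD.Asm

/-! # The upper and the lower bound for the number of values -/

set_option autoImplicit false

open Finset Filter Topology

namespace Pool.Agent.H132FD

variable {A C : Type} [Fintype A] [DecidableEq A] [Nonempty A] [Fintype C] [DecidableEq C]

/-- the map on vectors -/
def zz (κ : A × A → C) {n : ℕ} (t : (Fin n → A) × (Fin n → A)) : Fin n → C :=
  fun i => κ (t.1 i, t.2 i)

/-- the set of the values -/
def DD (κ : A × A → C) {n : ℕ} (S : Finset (Fin n → A)) : Finset (Fin n → C) :=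
  (S ×ˢ S).image (zz κ)

theorem card_le_DD (κ : A × A → C) (hi2 : ∀ a a' b, κ (a, b) = κ (a', b) → a = a') {n : ℕ}
    (S : Finset (Fin n → A)) : S.card ≤ (DD κ S).card := by
  rcases S.eq_empty_or_nonempty with rfl | ⟨x0, hx0⟩
  · simp
  · refine card_le_card_of_injOn (fun x => zz κ (x, x0)) ?_ ?_
    · intro x hx
      exact mem_coe.2 (mem_image.2 ⟨(x, x0), mem_product.2 ⟨mem_coe.1 hx, hx0⟩, rfl⟩)
    · intro x _ y _ h
      funext i
      exact hi2 _ _ _ (congrFun h i)

theorem tendsto_exp_neg {c : ℝ} (hc : 0 < c) :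
    Tendsto (fun n : ℕ => Real.exp (-(n * c))) atTop (𝓝 0) :=
  Real.tendsto_exp_neg_atTop_nhds_zero.comp
    ((tendsto_natCast_atTop_atTop).atTop_mul_const hc)

theorem min_le_rpow {u θ : ℝ} (hu : 0 ≤ u) (h0 : 0 ≤ θ) (h1 : θ ≤ 1) : min 1 u ≤ u ^ θ := by
  rcases le_total u 1 with h | h
  · refine (min_le_right _ _).trans ?_
    rcases eq_or_lt_of_le hu with e | e
    · rw [← e]
      exact Real.rpow_nonneg le_rfl _
    · calc u = u ^ (1 : ℝ) := (Real.rpow_one u).symm
        _ ≤ u ^ θ := Real.rpow_le_rpow_of_exponent_ge e h h1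
  · exact (min_le_left _ _).trans (Real.one_le_rpow h h0)

theorem sum_zz (α : A → ℝ) (κ : A × A → C) {n : ℕ} (c : Fin n → C) :
    ∑ t ∈ univ.filter (fun t : (Fin n → A) × (Fin n → A) => zz κ t = c), PP α t.1 * PP α t.2 =
      ∏ i, bet α κ (c i) := by
  classical
  have h3 : ∏ i, bet α κ (c i) = ∑ v ∈ Fintype.piFinset (fun i => univ.filter (fun w => κ w = c i)),
      ∏ i, (α (v i).1 * α (v i).2) := by
    unfold bet
    rw [Finset.prod_univ_sum]
  rw [h3]
  let e : ((Fin n → A) × (Fin n → A)) ≃ (Fin n → A × A) :=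
    (Equiv.arrowProdEquivProdArrow (Fin n) (fun _ => A) (fun _ => A)).symm
  refine Finset.sum_equiv e (fun t => ?_) (fun t _ => ?_)
  · rw [mem_filter, Fintype.mem_piFinset]
    constructor
    · rintro ⟨_, h⟩ i
      exact mem_filter.2 ⟨mem_univ _, congrFun h i⟩
    · intro h
      exact ⟨mem_univ _, funext fun i => (mem_filter.1 (h i)).2⟩
  · rw [PP, PP, ← prod_mul_distrib]
    rfl

theorem upper (α : A → ℝ) (hα : ∀ a, 0 < α a) (hα1 : ∀ a, α a ≤ 1) (κ : A × A → C)
    (lam δ θ : ℝ) (hδ : 0 < δ) (h0 : 0 ≤ θ) (h1 : θ ≤ 1)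
    (hF : F (bet α κ) θ ≤ Real.exp (lam + δ)) (ha : ∑ a, α a ≤ Real.exp (lam + δ)) :
    Whp α fun n R => ((DD κ (R.1 ∪ R.2)).card : ℝ) ≤ 2 * Real.exp (n * (lam + 2 * δ)) := by
  classical
  intro η hη
  filter_upwards [(tendsto_exp_neg hδ).eventually_lt_const hη] with n hn
  set s : Finset (Fin n → A) × Finset (Fin n → A) → (Fin n → A) → ℝ :=
    fun R x => ind R.1 x + ind R.2 x with hs
  have hs0 : ∀ R x, 0 ≤ s R x := fun R x => add_nonneg (ind_nonneg _ _) (ind_nonneg _ _)
  set Yc : (Fin n → C) → Finset (Fin n → A) × Finset (Fin n → A) → ℝ := fun c R =>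
    ∑ t ∈ (univ.filter (fun t : (Fin n → A) × (Fin n → A) => zz κ t = c)).filter
      (fun t => t.1 ≠ t.2), s R t.1 * s R t.2 with hYc
  have hYc0 : ∀ c R, 0 ≤ Yc c R := fun c R => sum_nonneg fun t _ => mul_nonneg (hs0 _ _) (hs0 _ _)
  have hbound : ∀ R : Finset (Fin n → A) × Finset (Fin n → A),
      ((DD κ (R.1 ∪ R.2)).card : ℝ) ≤ ((R.1.card : ℝ) + (R.2.card : ℝ)) + ∑ c, min 1 (Yc c R) := by
    intro R
    set S := R.1 ∪ R.2 with hS
    have hsub : DD κ S ⊆ S.image (fun x => zz κ (x, x)) ∪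
        univ.filter (fun c => ∃ t, t.1 ≠ t.2 ∧ zz κ t = c ∧ t.1 ∈ S ∧ t.2 ∈ S) := by
      intro c hc
      obtain ⟨t, ht, rfl⟩ := mem_image.1 hc
      obtain ⟨ht1, ht2⟩ := mem_product.1 ht
      rw [mem_union]
      by_cases h : t.1 = t.2
      · left
        refine mem_image.2 ⟨t.1, ht1, ?_⟩
        rw [show t = (t.1, t.1) from Prod.ext rfl h.symm]
      · right
        exact mem_filter.2 ⟨mem_univ _, t, h, rfl, ht1, ht2⟩
    have h2 : (DD κ S).card ≤ S.card +
        (univ.filter (fun c => ∃ t, t.1 ≠ t.2 ∧ zz κ t = c ∧ t.1 ∈ S ∧ t.2 ∈ S)).card :=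
      (card_le_card hsub).trans ((card_union_le _ _).trans (Nat.add_le_add_right card_image_le _))
    have h3 : S.card ≤ R.1.card + R.2.card := card_union_le _ _
    have h4 : ((univ.filter (fun c => ∃ t, t.1 ≠ t.2 ∧ zz κ t = c ∧ t.1 ∈ S ∧ t.2 ∈ S)).card : ℝ) ≤
        ∑ c, min 1 (Yc c R) := by
      rw [card_filter]
      push_cast
      refine sum_le_sum fun c _ => ?_
      split_ifs with hc
      · obtain ⟨t, ht1, ht2, ht3, ht4⟩ := hc
        refine le_min le_rfl ?_
        have h5 : ∀ x ∈ S, 1 ≤ s R x := by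
          intro x hx
          rw [hs]
          simp only
          rw [hS, mem_union] at hx
          have i1 := ind_nonneg R.1 x
          have i2 := ind_nonneg R.2 x
          rcases hx with hx | hx
          · have : ind R.1 x = 1 := by unfold ind; rw [if_pos hx]
            linarith
          · have : ind R.2 x = 1 := by unfold ind; rw [if_pos hx]
            linarith
        have h6 : 1 ≤ s R t.1 * s R t.2 := by
          have a1 := h5 _ ht3
          have a2 := h5 _ ht4
          nlinarith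
        refine h6.trans ?_
        exact single_le_sum (f := fun t : (Fin n → A) × (Fin n → A) => s R t.1 * s R t.2)
          (fun t _ => mul_nonneg (hs0 _ _) (hs0 _ _))
          (mem_filter.2 ⟨mem_filter.2 ⟨mem_univ _, ht2⟩, ht1⟩)
      · exact le_min zero_le_one (hYc0 _ _)
    have h2' : ((DD κ S).card : ℝ) ≤ (S.card : ℝ) +
        ((univ.filter (fun c => ∃ t, t.1 ≠ t.2 ∧ zz κ t = c ∧ t.1 ∈ S ∧ t.2 ∈ S)).card : ℝ) := by
      exact_mod_cast h2
    have h3' : (S.card : ℝ) ≤ (R.1.card : ℝ) + (R.2.card : ℝ) := by exact_mod_cast h3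
    linarith
  have hEY : ∀ c, E (hp α n) (Yc c) ≤ ∏ i, bet α κ (c i) := by
    intro c
    rw [hYc]
    simp only
    rw [E_sum, ← sum_zz α κ c]
    refine (sum_le_sum (g := fun t => PP α t.1 * PP α t.2) fun t ht => ?_).trans
      (sum_le_sum_of_subset_of_nonneg (filter_subset _ _)
        fun t _ _ => mul_nonneg (PP_nonneg hα _) (PP_nonneg hα _))
    have hne : t.1 ≠ t.2 := (mem_filter.1 ht).2
    have e : (fun R : Finset (Fin n → A) × Finset (Fin n → A) => s R t.1 * s R t.2) = fun R =>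
        ((ind R.1 t.1 * ind R.1 t.2) + (ind R.2 t.1 * ind R.2 t.2)) +
        (ind R.1 t.1 * ind R.2 t.2 + ind R.1 t.2 * ind R.2 t.1) := by
      funext R
      rw [hs]
      ring
    rw [e, E_add, E_add, E_add, E_fst (hp α n) (fun S => ind S t.1 * ind S t.2),
      E_snd (hp α n) (fun S => ind S t.1 * ind S t.2),
      E_prod (hp α n) (fun S => ind S t.1) (fun S => ind S t.2),
      E_prod (hp α n) (fun S => ind S t.2) (fun S => ind S t.1), sum_ind, sum_ind,
      sum_ind2_ne _ _ hne]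
    unfold hp
    apply le_of_eq
    ring
  have hEmin : ∀ c, E (hp α n) (fun R => min 1 (Yc c R)) ≤ ∏ i, bet α κ (c i) ^ θ := by
    intro c
    have hE0 : 0 ≤ E (hp α n) (Yc c) := by
      have := E_mono (fun x => hp0 hα x) (fun x => hp1 hα hα1 x) (F := fun _ => 0) (G := Yc c)
        (hYc0 c)
      refine le_trans (le_of_eq ?_) this
      unfold E
      simp
    have a1 : E (hp α n) (fun R => min 1 (Yc c R)) ≤ 1 := by
      refine (E_mono (fun x => hp0 hα x) (fun x => hp1 hα hα1 x) (G := fun _ => 1)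
        fun R => min_le_left _ _).trans (E_one _).le
    have a2 : E (hp α n) (fun R => min 1 (Yc c R)) ≤ E (hp α n) (Yc c) :=
      E_mono (fun x => hp0 hα x) (fun x => hp1 hα hα1 x) fun R => min_le_right _ _
    have hbn : ∀ i, 0 ≤ bet α κ (c i) := fun i => sum_nonneg fun w _ => (mul_pos (hα _) (hα _)).le
    calc E (hp α n) (fun R => min 1 (Yc c R)) ≤ min 1 (E (hp α n) (Yc c)) := le_min a1 a2
      _ ≤ (E (hp α n) (Yc c)) ^ θ := min_le_rpow hE0 h0 h1
      _ ≤ (∏ i, bet α κ (c i)) ^ θ := Real.rpow_le_rpow hE0 (hEY c) h0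
      _ = ∏ i, bet α κ (c i) ^ θ := (Real.finset_prod_rpow _ _ (fun i _ => hbn i) _).symm
  have hE : E (hp α n) (fun R => ((DD κ (R.1 ∪ R.2)).card : ℝ)) ≤ 2 * Real.exp (n * (lam + δ)) := by
    refine (E_mono (fun x => hp0 hα x) (fun x => hp1 hα hα1 x) hbound).trans ?_
    rw [E_add, E_add, E_fst (hp α n) (fun S => (S.card : ℝ)), E_snd (hp α n) (fun S => (S.card : ℝ)),
      sum_card, sum_hp, E_sum]
    have b1 : ∑ c, E (hp α n) (fun R => min 1 (Yc c R)) ≤ F (bet α κ) θ ^ n := by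
      refine (sum_le_sum fun c _ => hEmin c).trans (le_of_eq ?_)
      rw [F, Fintype.sum_pow]
    have hF0 : 0 ≤ F (bet α κ) θ := sum_nonneg fun c _ => Real.rpow_nonneg
      (sum_nonneg fun w _ => (mul_pos (hα _) (hα _)).le) _
    have ha0 : 0 ≤ ∑ a, α a := sum_nonneg fun a _ => (hα a).le
    have b2 := pow_le_pow_left₀ hF0 hF n
    have b3 := pow_le_pow_left₀ ha0 ha n
    rw [← Real.exp_nat_mul] at b2 b3
    linarith
  have hK : 0 < 2 * Real.exp (n * (lam + 2 * δ)) := by positivity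
  refine ⟨fun R => (2 * Real.exp (n * (lam + 2 * δ)))⁻¹ * ((DD κ (R.1 ∪ R.2)).card : ℝ),
    fun R => by positivity, ?_, ?_⟩
  · rw [E_smul]
    calc _ ≤ (2 * Real.exp (n * (lam + 2 * δ)))⁻¹ * (2 * Real.exp (n * (lam + δ))) := by gcongr
      _ = Real.exp (-(n * δ)) := by
          rw [show (n : ℝ) * (lam + 2 * δ) = n * (lam + δ) + n * δ by ring, Real.exp_add,
            Real.exp_neg]
          field_simp
      _ < η := hn
  · intro R hR
    simp only at hR
    rw [inv_mul_lt_iff₀ hK, mul_one] at hR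
    exact hR.le

theorem lower (α : A → ℝ) (hα : ∀ a, 0 < α a) (hα1 : ∀ a, α a ≤ 1) (κ : A × A → C)
    (hi1 : ∀ a b b', κ (a, b) = κ (a, b') → b = b') (hi2 : ∀ a a' b, κ (a, b) = κ (a', b) → a = a')
    (lam D δ : ℝ) (hδ : 0 < δ) (hδl : δ < lam)
    (hT : lam ≤ Real.log (∑ a, α a) + 3 * δ ∨
      ∃ ν₁ ν₂ : ℝ, ν₁ + 3 * δ < lam + max D 0 ∧ ν₂ + 3 * δ < lam + max D 0 ∧
        ∀ᶠ n : ℕ in atTop, ∃ T : Finset ((Fin n → A) × (Fin n → A)),
          1 / 2 * Real.exp (n * (lam + max D 0 - δ)) ≤ ∑ t ∈ T, PP α t.1 * PP α t.2 ∧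
          (∀ x, ∑ t ∈ T.filter (fun t => t.1 = x), PP α t.2 ≤ Real.exp (n * (ν₂ + δ))) ∧
          (∀ y, ∑ t ∈ T.filter (fun t => t.2 = y), PP α t.1 ≤ Real.exp (n * (ν₁ + δ))) ∧
          ∀ c : Fin n → C, ∑ t ∈ T.filter (fun t => (fun i => κ (t.1 i, t.2 i)) = c),
            PP α t.1 * PP α t.2 ≤ Real.exp (n * (D + δ))) :
    Whp α fun n R => (∑ a, α a) ^ n / 4 ≤ (R.1.card : ℝ) →
      1 / 64 * Real.exp (n * (lam - 3 * δ)) ≤ ((DD κ (R.1 ∪ R.2)).card : ℝ) := by
  classical
  intro η hη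
  rcases hT with hbad | ⟨ν₁, ν₂, hν1, hν2, hev⟩
  · refine Eventually.of_forall fun n => ⟨fun _ => 0, fun R => le_rfl, ?_, fun R _ hR => ?_⟩
    · have : E (hp α n) (fun _ => 0) = 0 := by unfold E; simp
      rw [this]; exact hη
    · have h1 : ((R.1.card : ℕ) : ℝ) ≤ ((DD κ (R.1 ∪ R.2)).card : ℝ) := by
        exact_mod_cast (card_le_card subset_union_left).trans (card_le_DD κ hi2 _)
      refine le_trans ?_ (hR.trans h1)
      have hapos : 0 < ∑ a, α a := sum_pos (fun a _ => hα a) univ_nonempty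
      have h2 : Real.exp (lam - 3 * δ) ≤ ∑ a, α a := by
        rw [← Real.exp_log hapos]
        exact Real.exp_le_exp.2 (by linarith)
      have h3 := pow_le_pow_left₀ (Real.exp_pos _).le h2 n
      rw [← Real.exp_nat_mul] at h3
      have h4 := Real.exp_pos (n * (lam - 3 * δ))
      linarith
  have hlim : Tendsto (fun n : ℕ => 33 * Real.exp (-(n * δ)) + 32 * Real.exp (-(n * (lam - δ))))
      atTop (𝓝 (33 * 0 + 32 * 0)) :=
    ((tendsto_exp_neg hδ).const_mul 33).add ((tendsto_exp_neg (sub_pos.2 hδl)).const_mul 32)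
  rw [mul_zero, mul_zero, add_zero] at hlim
  filter_upwards [hev, hlim.eventually_lt_const hη] with n hn hη'
  obtain ⟨T, h1, h2, h3, h4⟩ := hn
  set M := max D 0 with hM
  have hM0 : 0 ≤ M := le_max_right _ _
  have hMD : D ≤ M := le_max_left _ _
  set m : ℝ := ∑ t ∈ T, hp α n t.1 * hp α n t.2 with hm
  have hm' : m = (∑ t ∈ T, PP α t.1 * PP α t.2) / 4 := by
    rw [hm, sum_div]
    exact sum_congr rfl fun t _ => by unfold hp; ring
  have hmge : 1 / 8 * Real.exp (n * (lam + M - δ)) ≤ m := by rw [hm']; linarith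
  have hm0 : 0 < m := lt_of_lt_of_le (by positivity) hmge
  set Y : ℝ := Real.exp (n * (ν₂ + δ)) / 2 with hY
  set Y' : ℝ := Real.exp (n * (ν₁ + δ)) / 2 with hY'
  set r : ℝ := Real.exp (n * (D + δ)) / 4 with hr
  have hr0 : 0 < r := by rw [hr]; positivity
  have gX := E_X (hp α n) T
  have gX2 := E_X_sq (p := hp α n) (fun x => hp0 hα x) (fun x => hp1 hα hα1 x) T Y Y'
    (fun x => by
      have := h2 x
      unfold hp
      rw [← sum_div, hY]
      linarith)
    (fun y => by
      have := h3 y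
      unfold hp
      rw [← sum_div, hY']
      linarith)
  have gC := E_Coll (zz κ) (p := hp α n) (fun x => hp0 hα x) T r
    (fun t u htu hne => by
      constructor
      · intro h
        refine hne (Prod.ext h (funext fun i => hi1 (t.1 i) _ _ ?_))
        have := congrFun htu i
        simp only [zz] at this
        rw [← h] at this
        exact this
      · intro h
        refine hne (Prod.ext (funext fun i => hi2 _ _ (t.2 i) ?_) h)
        have := congrFun htu i
        simp only [zz] at this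
        rw [← h] at this
        exact this)
    (fun c => by
      have h5 := h4 c
      have h6 : ∑ t ∈ T.filter (fun t => zz κ t = c), hp α n t.1 * hp α n t.2 =
          (∑ t ∈ T.filter (fun t => (fun i => κ (t.1 i, t.2 i)) = c), PP α t.1 * PP α t.2) / 4 := by
        rw [sum_div]
        exact sum_congr rfl fun t _ => by unfold hp; ring
      rw [h6, hr]
      linarith)
  rw [← hm] at gX gX2 gC
  set K : ℝ := Real.exp (n * δ) * (m * (1 + r)) with hK
  have hK0 : 0 < K := by rw [hK]; positivity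
  have hXC0 : ∀ R, 0 ≤ Coll (zz κ) T R := fun R => sum_nonneg fun t _ => sum_nonneg fun u _ =>
    mul_nonneg (mul_nonneg (ind_nonneg _ _) (ind_nonneg _ _))
      (mul_nonneg (ind_nonneg _ _) (ind_nonneg _ _))
  refine ⟨fun R => 4 / m ^ 2 * (X T R - m) ^ 2 + K⁻¹ * Coll (zz κ) T R, fun R => ?_, ?_, ?_⟩
  · have := hXC0 R
    positivity
  · rw [E_add, E_smul, E_smul]
    have a1 : E (hp α n) (fun R => (X T R - m) ^ 2) ≤ m * (Y + Y' + 1) := by
      have e : (fun R => (X T R - m) ^ 2) = fun R => (X T R ^ 2 + (-(2 * m)) * X T R) + m ^ 2 * 1 := by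
        funext R; ring
      rw [e, E_add, E_add, E_smul, E_smul, E_one, gX]
      nlinarith
    have a2 : 4 / m ^ 2 * E (hp α n) (fun R => (X T R - m) ^ 2) ≤ 4 * (Y + Y' + 1) / m := by
      calc _ ≤ 4 / m ^ 2 * (m * (Y + Y' + 1)) := by gcongr
        _ = 4 * (Y + Y' + 1) / m := by field_simp
    have a3 : K⁻¹ * E (hp α n) (Coll (zz κ) T) ≤ Real.exp (-(n * δ)) := by
      calc _ ≤ K⁻¹ * (m * (1 + r)) := by gcongr
        _ = Real.exp (-(n * δ)) := by rw [hK, Real.exp_neg]; field_simp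
    have a4 : ∀ ν : ℝ, ν + 3 * δ < lam + M →
        4 * (Real.exp (n * (ν + δ)) / 2) ≤ 16 * Real.exp (-(n * δ)) * m := by
      intro ν hν
      have b1 : 16 * Real.exp (-(n * δ)) * (1 / 8 * Real.exp (n * (lam + M - δ))) ≤
          16 * Real.exp (-(n * δ)) * m := by gcongr
      refine le_trans ?_ b1
      have b2 : 16 * Real.exp (-(n * δ)) * (1 / 8 * Real.exp (n * (lam + M - δ))) =
          2 * Real.exp (n * (lam + M - 2 * δ)) := by
        rw [show (n : ℝ) * (lam + M - 2 * δ) = -(n * δ) + n * (lam + M - δ) by ring, Real.exp_add]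
        ring
      rw [b2]
      have b3 : Real.exp (n * (ν + δ)) ≤ Real.exp (n * (lam + M - 2 * δ)) := by
        refine Real.exp_le_exp.2 (mul_le_mul_of_nonneg_left (by linarith) (Nat.cast_nonneg n))
      linarith
    have a5 : 4 * (1 : ℝ) ≤ 32 * Real.exp (-(n * (lam - δ))) * m := by
      have b1 : 32 * Real.exp (-(n * (lam - δ))) * (1 / 8 * Real.exp (n * (lam + M - δ))) ≤
          32 * Real.exp (-(n * (lam - δ))) * m := by gcongr
      refine le_trans ?_ b1
      have b2 : 32 * Real.exp (-(n * (lam - δ))) * (1 / 8 * Real.exp (n * (lam + M - δ))) =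
          4 * Real.exp (n * M) := by
        rw [show (n : ℝ) * M = -(n * (lam - δ)) + n * (lam + M - δ) by ring, Real.exp_add]
        ring
      rw [b2]
      have : 1 ≤ Real.exp (n * M) := Real.one_le_exp (by positivity)
      linarith
    have a6 : 4 * (Y + Y' + 1) / m ≤ 32 * Real.exp (-(n * δ)) + 32 * Real.exp (-(n * (lam - δ))) := by
      rw [div_le_iff₀ hm0]
      have c1 := a4 ν₂ hν2
      have c2 := a4 ν₁ hν1
      rw [← hY] at c1
      rw [← hY'] at c2
      linarith
    calc _ ≤ (32 * Real.exp (-(n * δ)) + 32 * Real.exp (-(n * (lam - δ)))) + Real.exp (-(n * δ)) :=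
          add_le_add (a2.trans a6) a3
      _ = 33 * Real.exp (-(n * δ)) + 32 * Real.exp (-(n * (lam - δ))) := by ring
      _ < η := hη'
  · intro R hR _
    simp only at hR
    have b1 : 4 / m ^ 2 * (X T R - m) ^ 2 < 1 := by
      have : 0 ≤ K⁻¹ * Coll (zz κ) T R := mul_nonneg (inv_nonneg.2 hK0.le) (hXC0 R)
      linarith
    have b2 : K⁻¹ * Coll (zz κ) T R < 1 := by
      have : 0 ≤ 4 / m ^ 2 * (X T R - m) ^ 2 := by positivity
      linarith
    rw [inv_mul_lt_iff₀ hK0, mul_one] at b2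
    have b3 : m / 2 ≤ X T R := by
      by_contra hc
      push Not at hc
      have c1 : (m / 2) ^ 2 < (X T R - m) ^ 2 := by nlinarith
      have c2 : 4 / m ^ 2 * (m / 2) ^ 2 = 1 := by field_simp; ring
      have c3 : 4 / m ^ 2 * (m / 2) ^ 2 < 4 / m ^ 2 * (X T R - m) ^ 2 := by gcongr
      linarith
    have b4 := X_sq_le (zz κ) T R (DD κ (R.1 ∪ R.2)) (fun t _ ht1 ht2 =>
      mem_image.2 ⟨t, mem_product.2 ⟨mem_union_left _ ht1, mem_union_right _ ht2⟩, rfl⟩)
    set N : ℝ := ((DD κ (R.1 ∪ R.2)).card : ℝ) with hN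
    have hN0 : 0 ≤ N := by rw [hN]; positivity
    have b5 : (m / 2) ^ 2 ≤ N * K := by
      calc (m / 2) ^ 2 ≤ X T R ^ 2 := pow_le_pow_left₀ (by positivity) b3 2
        _ ≤ N * Coll (zz κ) T R := b4
        _ ≤ N * K := mul_le_mul_of_nonneg_left b2.le hN0
    have b6 : m ≤ 4 * N * (Real.exp (n * δ) * (1 + r)) := by
      have c1 : m * m ≤ m * (4 * N * (Real.exp (n * δ) * (1 + r))) := by
        rw [hK] at b5
        nlinarith
      exact le_of_mul_le_mul_left c1 hm0
    have b7 : 1 + r ≤ 2 * Real.exp (n * (M + δ)) := by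
      have c1 : r ≤ Real.exp (n * (M + δ)) := by
        rw [hr]
        have : Real.exp (n * (D + δ)) ≤ Real.exp (n * (M + δ)) :=
          Real.exp_le_exp.2 (mul_le_mul_of_nonneg_left (by linarith) (Nat.cast_nonneg n))
        have h' := Real.exp_pos (n * (D + δ))
        linarith
      have c2 : 1 ≤ Real.exp (n * (M + δ)) := Real.one_le_exp (by positivity)
      linarith
    have b8 : 1 / 8 * Real.exp (n * (lam + M - δ)) ≤
        8 * N * (Real.exp (n * δ) * Real.exp (n * (M + δ))) := by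
      refine hmge.trans (b6.trans ?_)
      calc 4 * N * (Real.exp (n * δ) * (1 + r)) ≤
            4 * N * (Real.exp (n * δ) * (2 * Real.exp (n * (M + δ)))) := by gcongr
        _ = _ := by ring
    have b9 : Real.exp (n * (lam + M - δ)) =
        Real.exp (n * (lam - 3 * δ)) * (Real.exp (n * δ) * Real.exp (n * (M + δ))) := by
      rw [← Real.exp_add, ← Real.exp_add]
      congr 1
      ring
    rw [b9] at b8
    have b10 : 0 < Real.exp (n * δ) * Real.exp (n * (M + δ)) := by positivity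
    have b11 : (1 / 64 * Real.exp (n * (lam - 3 * δ))) * (Real.exp (n * δ) * Real.exp (n * (M + δ))) ≤
        N * (Real.exp (n * δ) * Real.exp (n * (M + δ))) := by linarith
    exact le_of_mul_le_mul_right b11 b10

end Pool.Agent.H132FD
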