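import Pool.Agent.H132FD.Proj

/-! # The main construction -/

set_option autoImplicit false

open Finset Filter Topology

namespace Pool.Agent.H132FD

variable {A : Type} [Fintype A] [DecidableEq A] [Nonempty A]

/-- the set of the values of `a + k b` -/
abbrev Cs (ι : A → ℤ) (k : ℤ) : Type :=
  {c : ℤ // c ∈ (univ : Finset (A × A)).image fun w => ι w.1 + k * ι w.2}

/-- the map `a + k b` -/
def kap (ι : A → ℤ) (k : ℤ) (w : A × A) : Cs ι k :=
  ⟨ι w.1 + k * ι w.2, mem_image.2 ⟨w, mem_univ _, rfl⟩⟩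

theorem kap_surj (ι : A → ℤ) (k : ℤ) : Function.Surjective (kap ι k) := by
  rintro ⟨c, hc⟩
  obtain ⟨w, _, hw⟩ := mem_image.1 hc
  exact ⟨w, Subtype.ext hw⟩

theorem kap_inj1 (ι : A → ℤ) (hι : Function.Injective ι) (k : ℤ) (hk : k ≠ 0) (a b b' : A)
    (h : kap ι k (a, b) = kap ι k (a, b')) : b = b' := by
  have h1 : ι a + k * ι b = ι a + k * ι b' := congrArg Subtype.val h
  exact hι (mul_left_cancel₀ hk (add_left_cancel h1))

theorem kap_inj2 (ι : A → ℤ) (hι : Function.Injective ι) (k : ℤ) (a a' b : A)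
    (h : kap ι k (a, b) = kap ι k (a', b)) : a = a' := by
  have h1 : ι a + k * ι b = ι a' + k * ι b := congrArg Subtype.val h
  exact hι (add_right_cancel h1)

theorem construct (ι : A → ℤ) (hι : Function.Injective ι) (α : A → ℝ) (hα : ∀ a, 0 < α a)
    (hα1 : ∀ a, α a ≤ 1) (ha : 1 < ∑ a, α a) (𝒦 : Finset ℤ) (h𝒦 : ∀ k ∈ 𝒦, k ≠ 0) (lam : ℤ → ℝ)
    (hlam : ∀ k ∈ 𝒦, (⨅ p : Set.Ioo (0 : ℝ) 1, F (bet α (kap ι k)) p) = Real.exp (lam k))
    (δ : ℝ) (hδ : 0 < δ) (hδa : δ < Real.log (∑ a, α a)) :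
    (∀ k ∈ 𝒦, Real.log (∑ a, α a) ≤ lam k) ∧
    ∀ᶠ n : ℕ in atTop, ∃ S : Finset (Fin n → A), (∑ a, α a) ^ n / 4 ≤ (S.card : ℝ) ∧
      (S.card : ℝ) ≤ Real.exp (n * δ) * (∑ a, α a) ^ n ∧
      ∀ k ∈ 𝒦, 1 / 64 * Real.exp (n * (lam k - 3 * δ)) ≤ ((DD (kap ι k) S).card : ℝ) ∧
        ((DD (kap ι k) S).card : ℝ) ≤ 2 * Real.exp (n * (lam k + 2 * δ)) := by
  classical
  have hap : 0 < ∑ a, α a := by linarith
  have hbpos : ∀ k c, 0 < bet α (kap ι k) c := by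
    intro k c
    obtain ⟨w, hw⟩ := kap_surj ι k c
    refine sum_pos (fun w _ => mul_pos (hα _) (hα _)) ⟨w, by simp [hw]⟩
  have hne : ∀ k, Nonempty (Cs ι k) := fun k => ⟨kap ι k (Classical.arbitrary _, Classical.arbitrary _)⟩
  have hv : ∀ k : ℤ, ∃ p : ℝ, 0 ≤ p ∧ p ≤ 1 ∧
      (∀ p', 0 ≤ p' → p' ≤ 1 → F (bet α (kap ι k)) p ≤ F (bet α (kap ι k)) p') ∧
      p * (∑ c, (bet α (kap ι k) c ^ p / F (bet α (kap ι k)) p) * Real.log (bet α (kap ι k) c)) =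
        min (∑ c, (bet α (kap ι k) c ^ p / F (bet α (kap ι k)) p) * Real.log (bet α (kap ι k) c)) 0 :=
    fun k => vari _ (hbpos k)
  choose p p0 p1 pmin pD using hv
  have hF : ∀ k ∈ 𝒦, F (bet α (kap ι k)) (p k) = Real.exp (lam k) := by
    intro k hk
    rw [← hlam k hk, ciInf_F _ (hbpos k) (p k) (p0 k) (p1 k) (pmin k)]
  have hla : ∀ k ∈ 𝒦, Real.log (∑ a, α a) ≤ lam k := by
    intro k hk
    have h1 := F_ge α hα hα1 ha (kap ι k) (kap_surj ι k) (kap_inj2 ι hι k) (p k) (p0 k) (p1 k)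
    rw [hF k hk] at h1
    rw [← Real.log_exp (lam k)]
    exact Real.log_le_log hap h1
  refine ⟨hla, ?_⟩
  let Good : (Bool ⊕ (𝒦 × Bool)) → (n : ℕ) → Finset (Fin n → A) × Finset (Fin n → A) → Prop :=
    fun j n R => match j with
    | Sum.inl true => (∑ a, α a) ^ n / 4 ≤ (R.1.card : ℝ)
    | Sum.inl false => ((R.1 ∪ R.2).card : ℝ) ≤ Real.exp (n * δ) * (∑ a, α a) ^ n
    | Sum.inr (k, true) => ((DD (kap ι k.1) (R.1 ∪ R.2)).card : ℝ) ≤
        2 * Real.exp (n * (lam k.1 + 2 * δ))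
    | Sum.inr (k, false) => (∑ a, α a) ^ n / 4 ≤ (R.1.card : ℝ) →
        1 / 64 * Real.exp (n * (lam k.1 - 3 * δ)) ≤ ((DD (kap ι k.1) (R.1 ∪ R.2)).card : ℝ)
  have hall := whp_all α hα hα1 Good (by
    rintro (b | ⟨k, b⟩)
    · cases b with
      | true => exact szl α hα hα1 ha
      | false => exact szu α hα hα1 ha δ hδ
    · have hk := k.2
      cases b with
      | true =>
        refine upper α hα hα1 (kap ι k.1) (lam k.1) δ (p k.1) hδ (p0 _) (p1 _) ?_ ?_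
        · rw [hF _ hk]
          exact Real.exp_le_exp.2 (by linarith)
        · rw [← Real.exp_log hap]
          exact Real.exp_le_exp.2 (by have := hla _ hk; linarith)
      | false =>
        obtain ⟨D, hD⟩ := typ α hα (kap ι k.1) (kap_surj ι k.1) (p k.1) (pD k.1)
        have h1 := hD δ hδ
        rw [hF _ hk, Real.log_exp] at h1
        exact lower α hα hα1 (kap ι k.1) (kap_inj1 ι hι k.1 (h𝒦 _ hk)) (kap_inj2 ι hι k.1)
          (lam k.1) D δ hδ (lt_of_lt_of_le hδa (hla _ hk)) h1)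
  filter_upwards [hall] with n hn
  obtain ⟨R, hR⟩ := hn
  have g1 : (∑ a, α a) ^ n / 4 ≤ (R.1.card : ℝ) := hR (Sum.inl true)
  have g2 : ((R.1 ∪ R.2).card : ℝ) ≤ Real.exp (n * δ) * (∑ a, α a) ^ n := hR (Sum.inl false)
  refine ⟨R.1 ∪ R.2, g1.trans ?_, g2, fun k hk => ⟨?_, ?_⟩⟩
  · exact_mod_cast card_le_card subset_union_left
  · exact hR (Sum.inr (⟨k, hk⟩, false)) g1
  · exact hR (Sum.inr (⟨k, hk⟩, true))

theorem project {n : ℕ} (ι : A → ℤ) (hι : Function.Injective ι) (𝒦 : Finset ℤ)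
    (S : Finset (Fin n → A)) : ∃ S' : Finset ℤ, S'.card = S.card ∧
      ∀ k ∈ 𝒦, ((S' ×ˢ S').image fun t => t.1 + k * t.2).card = (DD (kap ι k) S).card := by
  classical
  obtain ⟨M, hM⟩ := exists_inj ((insert 0 𝒦).biUnion fun k =>
    (univ : Finset ((Fin n → A) × (Fin n → A))).image fun t i => ι (t.1 i) + k * ι (t.2 i))
  have hmem : ∀ k ∈ insert 0 𝒦, ∀ t : (Fin n → A) × (Fin n → A),
      (fun i => ι (t.1 i) + k * ι (t.2 i)) ∈ (insert 0 𝒦).biUnion fun k =>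
        (univ : Finset ((Fin n → A) × (Fin n → A))).image fun t i => ι (t.1 i) + k * ι (t.2 i) :=
    fun k hk t => mem_biUnion.2 ⟨k, hk, mem_image.2 ⟨t, mem_univ _, rfl⟩⟩
  set Φ : (Fin n → A) → ℤ := fun x => ∑ i, ι (x i) * M ^ (i : ℕ) with hΦ
  have hΦk : ∀ (k : ℤ) (x y : Fin n → A), Φ x + k * Φ y = ∑ i, (ι (x i) + k * ι (y i)) * M ^ (i : ℕ) := by
    intro k x y
    rw [hΦ]
    simp only
    rw [mul_sum, ← sum_add_distrib]
    exact sum_congr rfl fun i _ => by ring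
  refine ⟨S.image Φ, ?_, fun k hk => ?_⟩
  · refine card_image_of_injective _ fun x y h => ?_
    have h1 := hM _ (hmem 0 (mem_insert_self _ _) (x, x)) _ (hmem 0 (mem_insert_self _ _) (y, y)) (by
      simp only [zero_mul, add_zero]
      exact h)
    funext i
    have h2 := congrFun h1 i
    simp only [zero_mul, add_zero] at h2
    exact hι h2
  · have e1 : ((S.image Φ ×ˢ S.image Φ).image fun t => t.1 + k * t.2) =
        (DD (kap ι k) S).image fun u : Fin n → Cs ι k => ∑ i : Fin n, ((u i).1 : ℤ) * M ^ (i : ℕ) := by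
      rw [DD, image_image]
      ext c
      simp only [mem_image, mem_product, Prod.exists, Function.comp]
      constructor
      · rintro ⟨_, _, ⟨⟨x, hx, rfl⟩, ⟨y, hy, rfl⟩⟩, rfl⟩
        exact ⟨x, y, ⟨hx, hy⟩, (hΦk k x y).symm⟩
      · rintro ⟨x, y, ⟨hx, hy⟩, rfl⟩
        exact ⟨Φ x, Φ y, ⟨⟨x, hx, rfl⟩, ⟨y, hy, rfl⟩⟩, hΦk k x y⟩
    rw [e1]
    refine card_image_of_injOn fun u hu v hv h => ?_
    obtain ⟨t, _, rfl⟩ := mem_image.1 (mem_coe.1 hu)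
    obtain ⟨t', _, rfl⟩ := mem_image.1 (mem_coe.1 hv)
    have h1 := hM _ (hmem k (mem_insert_of_mem hk) t) _ (hmem k (mem_insert_of_mem hk) t') h
    funext i
    exact Subtype.ext (congrFun h1 i)

end Pool.Agent.H132FD
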