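import Pool.Agent.H132FD.Low

/-! # Projection to the integers, and the size of a dilate -/

set_option autoImplicit false

open Finset Filter Topology

namespace Pool.Agent.H132FD

/-- a linear form which is injective on a finite set of vectors -/
theorem exists_inj {n : ℕ} (𝓕 : Finset (Fin n → ℤ)) :
    ∃ M : ℤ, ∀ u ∈ 𝓕, ∀ v ∈ 𝓕, ∑ i, u i * M ^ (i : ℕ) = ∑ i, v i * M ^ (i : ℕ) → u = v := by
  classical
  let P : (Fin n → ℤ) → (Fin n → ℤ) → Polynomial ℤ := fun u v =>
    ∑ i, Polynomial.C (u i - v i) * Polynomial.X ^ (i : ℕ)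
  have hP : ∀ u v, P u v = 0 → u = v := by
    intro u v h
    funext j
    have h1 : (P u v).coeff (j : ℕ) = u j - v j := by
      simp only [P, Polynomial.finsetSum_coeff, Polynomial.coeff_C_mul, Polynomial.coeff_X_pow]
      rw [Finset.sum_eq_single j]
      · simp
      · intro i _ hij
        rw [if_neg (fun h => hij (Fin.ext h.symm)), mul_zero]
      · intro h; exact absurd (mem_univ j) h
    rw [h, Polynomial.coeff_zero] at h1
    linarith
  obtain ⟨M, hM⟩ := Infinite.exists_notMem_finset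
    (𝓕.biUnion fun u => 𝓕.biUnion fun v => (P u v).roots.toFinset)
  refine ⟨M, fun u hu v hv h => ?_⟩
  by_contra hne
  apply hM
  refine mem_biUnion.2 ⟨u, hu, mem_biUnion.2 ⟨v, hv, ?_⟩⟩
  rw [Multiset.mem_toFinset, Polynomial.mem_roots (fun h => hne (hP u v h)), Polynomial.IsRoot.def]
  simp only [P, Polynomial.eval_finsetSum, Polynomial.eval_mul, Polynomial.eval_C,
    Polynomial.eval_pow, Polynomial.eval_X]
  have : ∀ i : Fin n, (u i - v i) * M ^ (i : ℕ) = u i * M ^ (i : ℕ) - v i * M ^ (i : ℕ) := fun i => by ring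
  simp_rw [this]
  rw [sum_sub_distrib, h, sub_self]

theorem F_cont {C : Type} [Fintype C] (b : C → ℝ) (hb : ∀ c, 0 < b c) : Continuous (F b) := by
  unfold F
  refine continuous_finsetSum _ fun c _ => ?_
  exact Real.continuous_const_rpow (hb c).ne'

theorem ciInf_F {C : Type} [Fintype C] [Nonempty C] (b : C → ℝ) (hb : ∀ c, 0 < b c) (p : ℝ)
    (h0 : 0 ≤ p) (h1 : p ≤ 1) (hmin : ∀ p', 0 ≤ p' → p' ≤ 1 → F b p ≤ F b p') :
    (⨅ p' : Set.Ioo (0 : ℝ) 1, F b p') = F b p := by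
  have hne : Nonempty (Set.Ioo (0 : ℝ) 1) := ⟨⟨1 / 2, by norm_num, by norm_num⟩⟩
  apply le_antisymm
  · refine le_of_forall_pos_le_add fun ε hε => ?_
    have hc : p ∈ closure (Set.Ioo (0 : ℝ) 1) := by
      rw [closure_Ioo (by norm_num)]
      exact ⟨h0, h1⟩
    have hopen : {p' | F b p' < F b p + ε} ∈ 𝓝 p :=
      (isOpen_lt (F_cont b hb) continuous_const).mem_nhds (by simp [hε])
    obtain ⟨p', hp', hp''⟩ := mem_closure_iff_nhds.1 hc _ hopen
    refine (ciInf_le ⟨0, ?_⟩ (⟨p', hp''⟩ : Set.Ioo (0 : ℝ) 1)).trans (le_of_lt hp')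
    rintro _ ⟨x, rfl⟩
    exact (F_pos b hb _).le
  · exact le_ciInf fun p' => hmin _ p'.2.1.le p'.2.2.le

variable {A C : Type} [Fintype A] [DecidableEq A] [Nonempty A] [Fintype C] [DecidableEq C]

theorem bet_le (α : A → ℝ) (hα : ∀ a, 0 < α a) (hα1 : ∀ a, α a ≤ 1) (κ : A × A → C)
    (hi2 : ∀ a a' b, κ (a, b) = κ (a', b) → a = a') (c : C) : bet α κ c ≤ ∑ a, α a := by
  unfold bet
  calc ∑ w ∈ univ.filter (fun w => κ w = c), α w.1 * α w.2
      ≤ ∑ w ∈ univ.filter (fun w => κ w = c), α w.2 := by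
        refine sum_le_sum fun w _ => ?_
        have := hα1 w.1
        have := hα w.2
        nlinarith
    _ = ∑ b ∈ (univ.filter (fun w => κ w = c)).image Prod.snd, α b := by
        rw [sum_image]
        intro w hw w' hw' h
        have h1 := (mem_filter.1 (mem_coe.1 hw)).2
        have h2 := (mem_filter.1 (mem_coe.1 hw')).2
        refine Prod.ext (hi2 w.1 w'.1 w.2 ?_) h
        have e : (w'.1, w.2) = w' := Prod.ext rfl h
        rw [e]
        exact h1.trans h2.symm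
    _ ≤ ∑ a, α a := sum_le_sum_of_subset_of_nonneg (subset_univ _) fun a _ _ => (hα a).le

theorem sum_bet (α : A → ℝ) (κ : A × A → C) : ∑ c, bet α κ c = (∑ a, α a) ^ 2 := by
  unfold bet
  rw [sum_fiberwise, Fintype.sum_prod_type, sq, sum_mul_sum]

theorem F_ge (α : A → ℝ) (hα : ∀ a, 0 < α a) (hα1 : ∀ a, α a ≤ 1) (ha : 1 < ∑ a, α a)
    (κ : A × A → C) (hκ : Function.Surjective κ)
    (hi2 : ∀ a a' b, κ (a, b) = κ (a', b) → a = a') (p : ℝ) (h0 : 0 ≤ p) (h1 : p ≤ 1) :
    ∑ a, α a ≤ F (bet α κ) p := by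
  set a := ∑ a, α a with hadef
  have ha0 : 0 < a := by linarith
  have hbpos : ∀ c, 0 < bet α κ c := by
    intro c
    obtain ⟨w, hw⟩ := hκ c
    refine sum_pos (fun w _ => mul_pos (hα _) (hα _)) ⟨w, by simp [hw]⟩
  have key : ∀ c, bet α κ c / a ≤ bet α κ c ^ p := by
    intro c
    have e1 : 0 < bet α κ c / a := div_pos (hbpos c) ha0
    have e2 : bet α κ c / a ≤ 1 := (div_le_one ha0).2 (bet_le α hα hα1 κ hi2 c)
    have e3 : bet α κ c / a ≤ bet α κ c := div_le_self (hbpos c).le ha.le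
    calc bet α κ c / a = (bet α κ c / a) ^ (1 : ℝ) := (Real.rpow_one _).symm
      _ ≤ (bet α κ c / a) ^ p := Real.rpow_le_rpow_of_exponent_ge e1 e2 h1
      _ ≤ bet α κ c ^ p := Real.rpow_le_rpow e1.le e3 h0
  have h2 := sum_le_sum (s := univ) (fun c _ => key c)
  rw [← sum_div, sum_bet, ← hadef, sq, mul_div_assoc, div_self ha0.ne', mul_one] at h2
  exact h2

end Pool.Agent.H132FD
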