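import Mathlib

/-! # Random subsets of a finite set: first and second moments -/

set_option autoImplicit false

open Finset

namespace Pool.Agent.H132FD

variable {V : Type} [Fintype V] [DecidableEq V]

/-- the weight of a subset, for independent elements -/
noncomputable def wt (p : V → ℝ) (S : Finset V) : ℝ := (∏ x ∈ S, p x) * ∏ x ∈ Sᶜ, (1 - p x)

theorem wt_nonneg {p : V → ℝ} (h0 : ∀ x, 0 ≤ p x) (h1 : ∀ x, p x ≤ 1) (S : Finset V) :
    0 ≤ wt p S :=
  mul_nonneg (prod_nonneg fun x _ => h0 x) (prod_nonneg fun x _ => sub_nonneg.2 (h1 x))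

theorem sum_contains (p : V → ℝ) (U : Finset V) :
    ∑ S : Finset V, wt p S * (if U ⊆ S then 1 else 0) = ∏ x ∈ U, p x := by
  have h := Finset.prod_add p (fun x => if x ∈ U then 0 else 1 - p x) univ
  have hl : ∏ x : V, (p x + if x ∈ U then 0 else 1 - p x) = ∏ x ∈ U, p x := by
    rw [← Finset.prod_subset (Finset.subset_univ U) (f := fun x => p x + if x ∈ U then 0 else 1 - p x)]
    · exact prod_congr rfl fun x hx => by simp [hx]
    · intro x _ hx
      simp [hx]
  rw [hl, powerset_univ] at h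
  rw [h]
  refine sum_congr rfl fun S _ => ?_
  rw [wt, Finset.compl_eq_univ_sdiff]
  by_cases hU : U ⊆ S
  · rw [if_pos hU, mul_one]
    congr 1
    refine prod_congr rfl fun x hx => ?_
    have : x ∉ U := fun hxU => (mem_sdiff.1 hx).2 (hU hxU)
    rw [if_neg this]
  · rw [if_neg hU, mul_zero]
    obtain ⟨x, hxU, hxS⟩ := Finset.not_subset.1 hU
    rw [Finset.prod_eq_zero (i := x) (s := univ \ S) (by simp [hxS]) (by simp [hxU]), mul_zero]

theorem sum_wt (p : V → ℝ) : ∑ S : Finset V, wt p S = 1 := by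
  have := sum_contains p ∅
  simpa using this

/-- indicator of membership -/
noncomputable def ind (S : Finset V) (x : V) : ℝ := if x ∈ S then 1 else 0

theorem ind_nonneg (S : Finset V) (x : V) : 0 ≤ ind S x := by unfold ind; split_ifs <;> norm_num

theorem sum_ind (p : V → ℝ) (x : V) : ∑ S : Finset V, wt p S * ind S x = p x := by
  have := sum_contains p {x}
  simpa [ind] using this

theorem sum_ind2 {p : V → ℝ} (h0 : ∀ x, 0 ≤ p x) (x y : V) :
    ∑ S : Finset V, wt p S * (ind S x * ind S y) ≤ p x * p y + if x = y then p x else 0 := by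
  by_cases h : x = y
  · subst h
    rw [if_pos rfl]
    have e : ∀ S : Finset V, ind S x * ind S x = ind S x := by
      intro S; unfold ind; split_ifs <;> norm_num
    simp_rw [e]
    rw [sum_ind]
    have := mul_nonneg (h0 x) (h0 x)
    linarith
  · rw [if_neg h, add_zero]
    have h2 := sum_contains p {x, y}
    rw [prod_pair h] at h2
    rw [← h2]
    apply le_of_eq
    refine sum_congr rfl fun S _ => ?_
    congr 1
    unfold ind
    by_cases hx : x ∈ S <;> by_cases hy : y ∈ S <;> simp [hx, hy, insert_subset_iff]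

theorem sum_ind2_ne {p : V → ℝ} (x y : V) (h : x ≠ y) :
    ∑ S : Finset V, wt p S * (ind S x * ind S y) = p x * p y := by
  have h2 := sum_contains p {x, y}
  rw [prod_pair h] at h2
  rw [← h2]
  refine sum_congr rfl fun S _ => ?_
  congr 1
  unfold ind
  by_cases hx : x ∈ S <;> by_cases hy : y ∈ S <;> simp [hx, hy, insert_subset_iff]

/-- expectation over two independent random sets -/
noncomputable def E (p : V → ℝ) (F : Finset V × Finset V → ℝ) : ℝ :=
  ∑ R : Finset V × Finset V, wt p R.1 * wt p R.2 * F R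

theorem E_add (p : V → ℝ) (F G : Finset V × Finset V → ℝ) :
    E p (fun R => F R + G R) = E p F + E p G := by
  simp only [E, mul_add, sum_add_distrib]

theorem E_smul (p : V → ℝ) (c : ℝ) (F : Finset V × Finset V → ℝ) :
    E p (fun R => c * F R) = c * E p F := by
  simp only [E, mul_sum]
  exact sum_congr rfl fun R _ => by ring

theorem E_sum {ι : Type} (p : V → ℝ) (s : Finset ι) (F : ι → Finset V × Finset V → ℝ) :
    E p (fun R => ∑ i ∈ s, F i R) = ∑ i ∈ s, E p (F i) := by
  simp only [E, mul_sum]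
  rw [sum_comm]

theorem E_one (p : V → ℝ) : E p (fun _ => 1) = 1 := by
  simp only [E, mul_one]
  rw [Fintype.sum_prod_type]
  simp only [← mul_sum, sum_wt, mul_one]

theorem E_prod (p : V → ℝ) (f g : Finset V → ℝ) : E p (fun R => f R.1 * g R.2) =
    (∑ S, wt p S * f S) * ∑ S, wt p S * g S := by
  simp only [E]
  rw [Fintype.sum_prod_type, sum_mul_sum]
  exact sum_congr rfl fun S _ => sum_congr rfl fun S' _ => by ring

theorem E_mono {p : V → ℝ} (h0 : ∀ x, 0 ≤ p x) (h1 : ∀ x, p x ≤ 1)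
    {F G : Finset V × Finset V → ℝ} (h : ∀ R, F R ≤ G R) : E p F ≤ E p G :=
  sum_le_sum fun R _ => mul_le_mul_of_nonneg_left (h R)
    (mul_nonneg (wt_nonneg h0 h1 _) (wt_nonneg h0 h1 _))

theorem exists_lt {p : V → ℝ} (h0 : ∀ x, 0 ≤ p x) (h1 : ∀ x, p x ≤ 1)
    {F : Finset V × Finset V → ℝ} {c : ℝ} (h : E p F < c) : ∃ R, F R < c := by
  by_contra hc
  push Not at hc
  have h2 := E_mono h0 h1 (F := fun _ => c) (G := F) hc
  have h3 : E p (fun _ : Finset V × Finset V => c) = c := by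
    have := E_smul p c (fun _ : Finset V × Finset V => (1 : ℝ))
    simp only [mul_one] at this
    rw [this, E_one, mul_one]
  linarith

/-- the number of the pairs of `T` in the random product -/
noncomputable def X (T : Finset (V × V)) (R : Finset V × Finset V) : ℝ :=
  ∑ t ∈ T, ind R.1 t.1 * ind R.2 t.2

theorem E_X (p : V → ℝ) (T : Finset (V × V)) : E p (X T) = ∑ t ∈ T, p t.1 * p t.2 := by
  unfold X
  rw [E_sum]
  refine sum_congr rfl fun t _ => ?_
  rw [E_prod p (fun S => ind S t.1) (fun S => ind S t.2), sum_ind, sum_ind]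

theorem E_X_sq {p : V → ℝ} (h0 : ∀ x, 0 ≤ p x) (h1 : ∀ x, p x ≤ 1) (T : Finset (V × V)) (Y Y' : ℝ)
    (hY : ∀ x, ∑ t ∈ T.filter (fun t => t.1 = x), p t.2 ≤ Y)
    (hY' : ∀ y, ∑ t ∈ T.filter (fun t => t.2 = y), p t.1 ≤ Y') :
    E p (fun R => X T R ^ 2) ≤ (∑ t ∈ T, p t.1 * p t.2) ^ 2 +
      (∑ t ∈ T, p t.1 * p t.2) * (Y + Y' + 1) := by
  have e : (fun R : Finset V × Finset V => X T R ^ 2) = fun R => ∑ t ∈ T, ∑ u ∈ T,
      (ind R.1 t.1 * ind R.1 u.1) * (ind R.2 t.2 * ind R.2 u.2) := by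
    funext R
    rw [X, sq, sum_mul_sum]
    exact sum_congr rfl fun t _ => sum_congr rfl fun u _ => by ring
  rw [e, E_sum]
  simp_rw [E_sum]
  have key : ∀ t u : V × V, E p (fun R => (ind R.1 t.1 * ind R.1 u.1) * (ind R.2 t.2 * ind R.2 u.2)) ≤
      p t.1 * p t.2 * (p u.1 * p u.2) + (if t.1 = u.1 then p t.1 * p t.2 * p u.2 else 0) +
      (if t.2 = u.2 then p t.1 * p t.2 * p u.1 else 0) + (if t = u then p t.1 * p t.2 else 0) := by
    intro t u
    rw [E_prod p (fun S => ind S t.1 * ind S u.1) (fun S => ind S t.2 * ind S u.2)]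
    have a1 := sum_ind2 h0 t.1 u.1
    have a2 := sum_ind2 h0 t.2 u.2
    have b1 := h0 t.1
    have b2 := h0 t.2
    have b3 := h0 u.1
    have b4 := h0 u.2
    have hi1 : (0 : ℝ) ≤ if t.1 = u.1 then p t.1 else 0 := by split_ifs <;> simp [b1]
    refine (mul_le_mul_of_nonneg_left a2 ?_ ).trans ?_
    · exact sum_nonneg fun S _ => mul_nonneg (wt_nonneg h0 h1 S)
        (mul_nonneg (ind_nonneg _ _) (ind_nonneg _ _))
    refine (mul_le_mul_of_nonneg_right a1 ?_ ).trans ?_
    · have : (0 : ℝ) ≤ if t.2 = u.2 then p t.2 else 0 := by split_ifs <;> simp [b2]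
      positivity
    apply le_of_eq
    by_cases c1 : t.1 = u.1 <;> by_cases c2 : t.2 = u.2
    · have : t = u := Prod.ext c1 c2
      simp only [c1, c2, this, if_true]
      ring
    · have : t ≠ u := fun h => c2 (by rw [h])
      simp only [c1, c2, this, if_true, if_false]
      ring
    · have : t ≠ u := fun h => c1 (by rw [h])
      simp only [c1, c2, this, if_true, if_false]
      ring
    · have : t ≠ u := fun h => c1 (by rw [h])
      simp only [c1, c2, this, if_false]
      ring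
  refine (sum_le_sum fun t _ => sum_le_sum fun u _ => key t u).trans ?_
  simp only [sum_add_distrib]
  have s1 : ∑ t ∈ T, ∑ u ∈ T, p t.1 * p t.2 * (p u.1 * p u.2) = (∑ t ∈ T, p t.1 * p t.2) ^ 2 := by
    rw [sq, sum_mul_sum]
  have s2 : ∑ t ∈ T, ∑ u ∈ T, (if t.1 = u.1 then p t.1 * p t.2 * p u.2 else 0) ≤
      (∑ t ∈ T, p t.1 * p t.2) * Y := by
    rw [sum_mul]
    refine sum_le_sum fun t _ => ?_
    rw [← sum_filter, ← mul_sum]
    refine mul_le_mul_of_nonneg_left ?_ (mul_nonneg (h0 _) (h0 _))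
    refine le_trans (le_of_eq ?_) (hY t.1)
    refine sum_congr ?_ fun _ _ => rfl
    exact filter_congr fun u _ => eq_comm
  have s3 : ∑ t ∈ T, ∑ u ∈ T, (if t.2 = u.2 then p t.1 * p t.2 * p u.1 else 0) ≤
      (∑ t ∈ T, p t.1 * p t.2) * Y' := by
    rw [sum_mul]
    refine sum_le_sum fun t _ => ?_
    rw [← sum_filter, ← mul_sum]
    refine mul_le_mul_of_nonneg_left ?_ (mul_nonneg (h0 _) (h0 _))
    refine le_trans (le_of_eq ?_) (hY' t.2)
    refine sum_congr ?_ fun _ _ => rfl
    exact filter_congr fun u _ => eq_comm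
  have s4 : ∑ t ∈ T, ∑ u ∈ T, (if t = u then p t.1 * p t.2 else 0) = ∑ t ∈ T, p t.1 * p t.2 := by
    refine sum_congr rfl fun t ht => ?_
    rw [sum_ite_eq, if_pos ht]
  rw [s1, s4]
  linarith

/-- the number of the pairs of pairs with the same value of `z` -/
noncomputable def Coll {Z : Type} [DecidableEq Z] (z : V × V → Z) (T : Finset (V × V))
    (R : Finset V × Finset V) : ℝ :=
  ∑ t ∈ T, ∑ u ∈ T.filter (fun u => z t = z u),
    (ind R.1 t.1 * ind R.1 u.1) * (ind R.2 t.2 * ind R.2 u.2)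

theorem E_Coll {Z : Type} [DecidableEq Z] (z : V × V → Z) {p : V → ℝ} (h0 : ∀ x, 0 ≤ p x)
    (T : Finset (V × V)) (r : ℝ)
    (hz : ∀ t u : V × V, z t = z u → t ≠ u → t.1 ≠ u.1 ∧ t.2 ≠ u.2)
    (hr : ∀ c, ∑ t ∈ T.filter (fun t => z t = c), p t.1 * p t.2 ≤ r) :
    E p (Coll z T) ≤ (∑ t ∈ T, p t.1 * p t.2) * (1 + r) := by
  unfold Coll
  rw [E_sum, sum_mul]
  refine sum_le_sum fun t ht => ?_
  rw [E_sum]
  have key : ∀ u ∈ T.filter (fun u => z t = z u),
      E p (fun R => (ind R.1 t.1 * ind R.1 u.1) * (ind R.2 t.2 * ind R.2 u.2)) ≤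
      (if t = u then p t.1 * p t.2 else 0) + p t.1 * p t.2 * (p u.1 * p u.2) := by
    intro u hu
    rw [E_prod p (fun S => ind S t.1 * ind S u.1) (fun S => ind S t.2 * ind S u.2)]
    by_cases h : t = u
    · subst h
      have e : ∀ (S : Finset V) (x : V), ind S x * ind S x = ind S x := by
        intro S x; unfold ind; split_ifs <;> norm_num
      simp_rw [e]
      rw [sum_ind, sum_ind]
      simp only [if_true]
      have := mul_nonneg (mul_nonneg (h0 t.1) (h0 t.2)) (mul_nonneg (h0 t.1) (h0 t.2))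
      linarith
    · obtain ⟨a1, a2⟩ := hz t u (mem_filter.1 hu).2 h
      rw [sum_ind2_ne _ _ a1, sum_ind2_ne _ _ a2, if_neg h]
      apply le_of_eq
      ring
  refine (sum_le_sum key).trans ?_
  rw [sum_add_distrib, ← mul_sum, mul_add, mul_one]
  have c1 : ∑ u ∈ T.filter (fun u => z t = z u), (if t = u then p t.1 * p t.2 else 0) ≤
      p t.1 * p t.2 := by
    rw [sum_ite_eq]
    split_ifs
    · exact le_rfl
    · exact mul_nonneg (h0 _) (h0 _)
  have c2 : ∑ u ∈ T.filter (fun u => z t = z u), p u.1 * p u.2 ≤ r := by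
    refine le_trans (le_of_eq ?_) (hr (z t))
    refine sum_congr ?_ fun _ _ => rfl
    exact filter_congr fun u _ => eq_comm
  have c3 := mul_le_mul_of_nonneg_left c2 (mul_nonneg (h0 t.1) (h0 t.2))
  linarith

/-- Cauchy and Schwarz -/
theorem X_sq_le {Z : Type} [DecidableEq Z] (z : V × V → Z) (T : Finset (V × V))
    (R : Finset V × Finset V) (D : Finset Z)
    (hD : ∀ t ∈ T, t.1 ∈ R.1 → t.2 ∈ R.2 → z t ∈ D) :
    X T R ^ 2 ≤ (D.card : ℝ) * Coll z T R := by
  set U := T.filter (fun t => t.1 ∈ R.1 ∧ t.2 ∈ R.2) with hU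
  have e1 : X T R = (U.card : ℝ) := by
    rw [X, card_filter]
    push_cast
    refine sum_congr rfl fun t _ => ?_
    unfold ind
    by_cases a : t.1 ∈ R.1 <;> by_cases b : t.2 ∈ R.2 <;> simp [a, b]
  have e2 : Coll z T R = ∑ t ∈ U, ((U.filter (fun u => z u = z t)).card : ℝ) := by
    rw [Coll, hU, sum_filter]
    refine sum_congr rfl fun t _ => ?_
    by_cases a : t.1 ∈ R.1 ∧ t.2 ∈ R.2
    · rw [if_pos a, filter_filter, card_filter]
      push_cast
      rw [sum_filter]
      refine sum_congr rfl fun u _ => ?_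
      unfold ind
      by_cases c : z t = z u
      · by_cases a' : u.1 ∈ R.1 <;> by_cases b' : u.2 ∈ R.2 <;> simp [a.1, a.2, a', b', c]
      · have c' : ¬ z u = z t := fun h => c h.symm
        simp [c, c']
    · rw [if_neg a]
      refine sum_eq_zero fun u _ => ?_
      unfold ind
      by_cases a1 : t.1 ∈ R.1
      · have a2 : t.2 ∉ R.2 := fun h => a ⟨a1, h⟩
        simp [a2]
      · simp [a1]
  have hmaps : ∀ t ∈ U, z t ∈ D := by
    intro t ht
    rw [hU, mem_filter] at ht
    exact hD t ht.1 ht.2.1 ht.2.2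
  have e3 : (U.card : ℝ) = ∑ c ∈ D, ((U.filter (fun u => z u = c)).card : ℝ) := by
    have := card_eq_sum_card_fiberwise hmaps
    exact_mod_cast this
  have e4 : ∑ t ∈ U, ((U.filter (fun u => z u = z t)).card : ℝ) =
      ∑ c ∈ D, ((U.filter (fun u => z u = c)).card : ℝ) ^ 2 := by
    rw [← sum_fiberwise_of_maps_to hmaps]
    refine sum_congr rfl fun c _ => ?_
    rw [sum_congr rfl (g := fun _ => ((U.filter (fun u => z u = c)).card : ℝ))]
    · rw [sum_const, nsmul_eq_mul, sq]
    · intro t ht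
      rw [(mem_filter.1 ht).2]
  rw [e1, e2, e4, e3]
  exact sq_sum_le_card_mul_sum_sq

end Pool.Agent.H132FD
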